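import Pool.Agent.Work.MP_59976d_co_even.Basic
import Pool.Agent.Work.MP_59976d_co_odd.P1

/-!
The first alternative of the structure lemma: `K = ⊤`.
-/

namespace Pool.Agent.Work.MP_59976d_co

open Finset
open scoped Pointwise

universe u

/-- In the first alternative of the structure lemma (for the fibres over any subgroup `L`, with
`|A| + |B| ≥ |A ∔ B| + 4`) the subgroup `K` is everything: otherwise the preimage of `K` contains a
counterexample. -/
lemma alt_one {G : Type u} [AddCommGroup G] [Fintype G] [DecidableEq G]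
    (hsub : ∀ H : AddSubgroup G, H ≠ ⊤ → RestrictedScherk H)
    (A B : Finset G) (hadm : Adm A B) (hF : (rs A B).card + 4 ≤ A.card + B.card)
    (L : AddSubgroup G) [Fintype (G ⧸ L)] (p : ℕ) (K : AddSubgroup (G ⧸ L)) (m m' g : G ⧸ L → ℕ)
    (hH : Heights p (fun i => (part L A i).card) (fun i => (part L B i).card)
      (fun i => (part L (rs A B) i).card) K m m' g)
    (h1 : g 0 + 1 = m 0 + m' 0) : K = ⊤ := by
  classical
  have hle1 : ∀ i, (part L A i).card ≤ m i := hH.le_m
  have hle2 : ∀ i, (part L B i).card ≤ m' i := hH.le_m'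
  have hle3 : ∀ i, g i ≤ (part L (rs A B) i).card := hH.g_le
  by_contra hK
  set N : AddSubgroup G := K.comap (QuotientAddGroup.mk' L) with hN
  have memN : ∀ z : G, z ∈ N ↔ (QuotientAddGroup.mk z : G ⧸ L) ∈ K := fun z => Iff.rfl
  have hNtop : N ≠ ⊤ := by
    intro h
    apply hK
    rw [eq_top_iff]
    intro q _
    obtain ⟨z, rfl⟩ := QuotientAddGroup.mk_surjective q
    rw [← memN, h]
    exact AddSubgroup.mem_top z
  set fU : G ⧸ L → ℕ := fun i => m i - (part L A i).card with hfU
  set fV : G ⧸ L → ℕ := fun i => m' i - (part L B i).card with hfV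
  set fE : G ⧸ L → ℕ := fun i => (part L (rs A B) i).card - g i with hfE
  have htotal : ∑ i, fU i + ∑ i, fV i + ∑ i, fE i + 4 ≤ Nat.card K := by
    have e1 : ∑ i, m i = ∑ i, fU i + ∑ i, (part L A i).card := by
      rw [← sum_add_distrib]
      apply sum_congr rfl
      intro i _
      have := hle1 i
      simp only [hfU]
      omega
    have e2 : ∑ i, m' i = ∑ i, fV i + ∑ i, (part L B i).card := by
      rw [← sum_add_distrib]
      apply sum_congr rfl
      intro i _
      have := hle2 i
      simp only [hfV]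
      omega
    have e3 : ∑ i, (part L (rs A B) i).card = ∑ i, fE i + ∑ i, g i := by
      rw [← sum_add_distrib]
      apply sum_congr rfl
      intro i _
      have := hle3 i
      simp only [hfE]
      omega
    have e4 := hH.total
    rw [← card_eq_sum_part] at e1 e2 e3
    omega
  have bA : (blk K A 0).card + Dv K fU 0 = Nat.card K * m 0 :=
    card_blk_add K A 0 m hH.per_m hle1
  have bB : (blk K B 0).card + Dv K fV 0 = Nat.card K * m' 0 :=
    card_blk_add K B 0 m' hH.per_m' hle2
  have bC : (blk K (rs A B) 0).card = Nat.card K * g 0 + Dv K fE 0 :=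
    card_blk_eq K (rs A B) 0 g hH.per_g hle3
  have hmul : Nat.card K * g 0 + Nat.card K = Nat.card K * m 0 + Nat.card K * m' 0 := by
    rw [← Nat.mul_add, ← h1]; ring
  have d1 := Dv_le K fU 0
  have d2 := Dv_le K fV 0
  have d3 := Dv_le K fE 0
  have hadm' : Adm (blk K A 0) (blk K B 0) := by
    refine ⟨mem_blk.2 ⟨hadm.zA, by rw [sub_zero]; exact K.zero_mem⟩,
      mem_blk.2 ⟨hadm.zB, by rw [sub_zero]; exact K.zero_mem⟩, ?_⟩
    intro a ha hb
    exact hadm.uniq a (mem_blk.1 ha).1 (mem_blk.1 hb).1
  have hinj := of_injective (hsub N hNtop) N.subtype (AddSubgroup.subtype_injective _)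
    (blk K A 0) (blk K B 0) hadm'
    (fun a ha => ⟨⟨a, (memN a).2 (by
      have := (mem_blk.1 ha).2
      rwa [sub_zero] at this)⟩, rfl⟩)
    (fun a ha => ⟨⟨a, (memN a).2 (by
      have := (mem_blk.1 ha).2
      rwa [sub_zero] at this)⟩, rfl⟩)
  have hsubset : rs (blk K A 0) (blk K B 0) ⊆ blk K (rs A B) 0 := by
    intro z hz
    rw [mem_rs] at hz
    obtain ⟨a, ha, b, hb, hne, rfl⟩ := hz
    rw [mem_blk] at ha hb ⊢
    refine ⟨mem_rs.2 ⟨a, ha.1, b, hb.1, hne, rfl⟩, ?_⟩
    have := K.add_mem ha.2 hb.2
    rw [QuotientAddGroup.mk_add]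
    simpa using this
  have hle := card_le_card hsubset
  omega

/-- (L) for pairs contained in a coset of a subgroup `N` satisfying (L). -/
lemma LL.coset {G : Type u} [AddCommGroup G] [DecidableEq G] (N : AddSubgroup G) (hN : LL N)
    (X Y : Finset G) (d : G) (hX : ∀ x ∈ X, x - d ∈ N) (hY : ∀ y ∈ Y, y - d ∈ N) (hdX : d ∈ X)
    (hdY : d ∈ Y) (hlost : d + d ∉ rs X Y) :
    X.card + Y.card ≤ (rs X Y).card + (X.filter (fun a => d + d - a ∈ Y)).card + 2 := by
  classical
  -- pull back to `N`
  set f : N → G := fun n => d + n with hf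
  have hinj : Function.Injective f := fun a b h => Subtype.ext (add_left_cancel h)
  set X' : Finset N := X.preimage f hinj.injOn with hX'
  set Y' : Finset N := Y.preimage f hinj.injOn with hY'
  have memX' : ∀ n : N, n ∈ X' ↔ d + (n : G) ∈ X := fun n => by rw [hX', mem_preimage]
  have memY' : ∀ n : N, n ∈ Y' ↔ d + (n : G) ∈ Y := fun n => by rw [hY', mem_preimage]
  have iX : X'.image f = X := by
    ext x
    rw [mem_image]
    constructor
    · rintro ⟨n, hn, rfl⟩; exact (memX' n).1 hn
    · intro hx
      refine ⟨⟨x - d, hX x hx⟩, (memX' _).2 ?_, ?_⟩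
      · show d + (x - d) ∈ X
        rwa [add_sub_cancel]
      · show d + (x - d) = x
        exact add_sub_cancel _ _
  have iY : Y'.image f = Y := by
    ext x
    rw [mem_image]
    constructor
    · rintro ⟨n, hn, rfl⟩; exact (memY' n).1 hn
    · intro hx
      refine ⟨⟨x - d, hY x hx⟩, (memY' _).2 ?_, ?_⟩
      · show d + (x - d) ∈ Y
        rwa [add_sub_cancel]
      · show d + (x - d) = x
        exact add_sub_cancel _ _
  have cX : X'.card = X.card := by rw [← card_image_of_injective X' hinj, iX]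
  have cY : Y'.card = Y.card := by rw [← card_image_of_injective Y' hinj, iY]
  have hC : (rs X' Y').card ≤ (rs X Y).card := by
    rw [← card_image_of_injective (rs X' Y') (f := fun n : N => d + d + (n : G))
      (fun a b h => Subtype.ext (add_left_cancel h))]
    apply card_le_card
    intro z hz
    rw [mem_image] at hz
    obtain ⟨n, hn, rfl⟩ := hz
    rw [mem_rs] at hn
    obtain ⟨a, ha, b, hb, hne, rfl⟩ := hn
    rw [mem_rs]
    refine ⟨d + a, (memX' a).1 ha, d + b, (memY' b).1 hb, fun h => hne (hinj h), ?_⟩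
    rw [AddSubgroup.coe_add]; abel
  have hR : (X'.filter (fun a => -a ∈ Y')).card ≤ (X.filter (fun a => d + d - a ∈ Y)).card := by
    rw [← card_image_of_injective (X'.filter (fun a => -a ∈ Y')) hinj]
    apply card_le_card
    intro z hz
    rw [mem_image] at hz
    obtain ⟨n, hn, rfl⟩ := hz
    rw [mem_filter, memX', memY'] at hn
    rw [mem_filter]
    refine ⟨hn.1, ?_⟩
    have e : d + d - f n = d + ((-n : N) : G) := by
      rw [AddSubgroup.coe_neg]; show d + d - (d + n) = _; abel
    rw [e]
    exact hn.2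
  have h0X : (0 : N) ∈ X' := (memX' 0).2 (by rw [AddSubgroup.coe_zero, add_zero]; exact hdX)
  have h0Y : (0 : N) ∈ Y' := (memY' 0).2 (by rw [AddSubgroup.coe_zero, add_zero]; exact hdY)
  have h1 := (ll_iff.1 hN) X' Y' h0X h0Y (by
    intro a ha hb
    rw [memX'] at ha
    rw [memY'] at hb
    have e : d + d - (d + (a : G)) = d + ((-a : N) : G) := by
      rw [AddSubgroup.coe_neg]; abel
    have h2 := (diag_of_lost hlost ha (by rw [e]; exact hb)).2
    apply Subtype.ext
    rw [AddSubgroup.coe_add, AddSubgroup.coe_zero]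
    have e2 : (a : G) + a = d + a + (d + a) - (d + d) := by abel
    rw [e2, h2, sub_self])
  omega

end Pool.Agent.Work.MP_59976d_co
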