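import Pool.Agent.Work.MP_59976d_co_even.Defs
import Pool.Agent.Work.MP_59976d_co_odd.Basic

/-!
Basic lemmas for the even case: reformulations of (L), recentring, transport along isomorphisms,
levels for a subgroup of order two.
-/

namespace Pool.Agent.Work.MP_59976d_co

open Finset
open scoped Pointwise

universe u

section basic

variable {G : Type*} [AddCommGroup G]

lemma ll_iff [DecidableEq G] :
    LL G ↔ ∀ A B : Finset G, (0 : G) ∈ A → (0 : G) ∈ B → (∀ a ∈ A, -a ∈ B → a + a = 0) →
      A.card + B.card ≤ (rs A B).card + (A.filter (fun a => -a ∈ B)).card + 2 := by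
  have h1 : ∀ A B : Finset G, {x : G | ∃ a ∈ A, ∃ b ∈ B, a ≠ b ∧ a + b = x}.ncard =
      (rs A B).card := by
    intro A B
    rw [← Set.ncard_coe_finset]
    congr 1
    ext x
    rw [Set.mem_ofPred_eq, mem_coe, mem_rs]
  have h2 : ∀ A B : Finset G, {a : G | a ∈ A ∧ -a ∈ B}.ncard =
      (A.filter (fun a => -a ∈ B)).card := by
    intro A B
    rw [← Set.ncard_coe_finset]
    congr 1
    ext x
    simp
  unfold LL
  simp only [h1, h2]

/-- (L) implies the inequality of Q1. -/
lemma LL.scherk (h : LL G) : RestrictedScherk G := by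
  classical
  rw [restrictedScherk_iff]
  rw [ll_iff] at h
  intro A B hadm
  have h1 := h A B hadm.zA hadm.zB (fun a ha hb => by rw [hadm.uniq a ha hb, add_zero])
  have h2 : (A.filter (fun a => -a ∈ B)).card ≤ 1 := by
    rw [card_le_one]
    intro a ha b hb
    rw [mem_filter] at ha hb
    rw [hadm.uniq a ha.1 ha.2, hadm.uniq b hb.1 hb.2]
  omega

lemma rs_comm [DecidableEq G] (A B : Finset G) : rs A B = rs B A := by
  ext x
  rw [mem_rs, mem_rs]
  constructor
  · rintro ⟨a, ha, b, hb, hne, h⟩; exact ⟨b, hb, a, ha, hne.symm, by rw [add_comm]; exact h⟩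
  · rintro ⟨a, ha, b, hb, hne, h⟩; exact ⟨b, hb, a, ha, hne.symm, by rw [add_comm]; exact h⟩

lemma Adm.symm [DecidableEq G] {A B : Finset G} (h : Adm A B) : Adm B A := by
  refine ⟨h.zB, h.zA, ?_⟩
  intro b hb hb'
  have := h.uniq (-b) hb' (by rwa [neg_neg])
  rwa [neg_eq_zero] at this

/-- Translation: `A - d`. -/
def tr [DecidableEq G] (d : G) (A : Finset G) : Finset G := A.image (fun a => a - d)

lemma mem_tr [DecidableEq G] {d : G} {A : Finset G} {x : G} : x ∈ tr d A ↔ x + d ∈ A := by
  unfold tr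
  rw [mem_image]
  constructor
  · rintro ⟨a, ha, rfl⟩; rwa [sub_add_cancel]
  · intro h; exact ⟨x + d, h, add_sub_cancel_right _ _⟩

lemma card_tr [DecidableEq G] (d : G) (A : Finset G) : (tr d A).card = A.card :=
  card_image_of_injective _ sub_left_injective

lemma rs_tr [DecidableEq G] (d : G) (A B : Finset G) : rs (tr d A) (tr d B) = tr (d + d) (rs A B) := by
  ext x
  rw [mem_rs, mem_tr, mem_rs]
  constructor
  · rintro ⟨a, ha, b, hb, hne, rfl⟩
    rw [mem_tr] at ha hb
    exact ⟨a + d, ha, b + d, hb, fun h => hne (add_right_cancel h), by abel⟩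
  · rintro ⟨a, ha, b, hb, hne, h⟩
    refine ⟨a - d, by rwa [mem_tr, sub_add_cancel], b - d, by rwa [mem_tr, sub_add_cancel],
      fun h' => hne (sub_left_injective h'), ?_⟩
    have : x = a + b - (d + d) := by rw [h]; abel
    rw [this]; abel

/-- Recentring at a uniquely represented lost sum gives an admissible pair. -/
lemma adm_tr [DecidableEq G] {A B : Finset G} {d : G} (hA : d ∈ A) (hB : d ∈ B)
    (h : ∀ a ∈ A, d + d - a ∈ B → a = d) : Adm (tr d A) (tr d B) := by
  refine ⟨by rwa [mem_tr, zero_add], by rwa [mem_tr, zero_add], ?_⟩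
  intro a ha hb
  rw [mem_tr] at ha hb
  have e : d + d - (a + d) = -a + d := by abel
  have := h (a + d) ha (by rwa [e])
  rwa [add_eq_right] at this

lemma RestrictedScherk.lost [DecidableEq G] (h : RestrictedScherk G) (A B : Finset G) (d : G)
    (hA : d ∈ A) (hB : d ∈ B) (hu : ∀ a ∈ A, d + d - a ∈ B → a = d) :
    A.card + B.card ≤ (rs A B).card + 3 := by
  rw [restrictedScherk_iff] at h
  have := h _ _ (adm_tr hA hB hu)
  rwa [rs_tr, card_tr, card_tr, card_tr] at this

/-- In a lost sum all representations are diagonal. -/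
lemma diag_of_lost [DecidableEq G] {A B : Finset G} {s a : G} (hs : s ∉ rs A B) (ha : a ∈ A)
    (hb : s - a ∈ B) : a ∈ B ∧ a + a = s := by
  by_cases h : a = s - a
  · constructor
    · rw [← h] at hb; exact hb
    · nth_rw 2 [h]; abel
  · exfalso
    apply hs
    rw [mem_rs]
    exact ⟨a, ha, s - a, hb, h, by abel⟩

/-- (L) recentred at a lost sum. -/
lemma LL.lost [DecidableEq G] (h : LL G) (A B : Finset G) (d : G) (hA : d ∈ A) (hB : d ∈ B)
    (hlost : d + d ∉ rs A B) :
    A.card + B.card ≤ (rs A B).card + (A.filter (fun a => d + d - a ∈ B)).card + 2 := by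
  rw [ll_iff] at h
  have h1 := h (tr d A) (tr d B) (by rwa [mem_tr, zero_add]) (by rwa [mem_tr, zero_add]) (by
    intro a ha hb
    rw [mem_tr] at ha hb
    have e : d + d - (a + d) = -a + d := by abel
    have h2 := (diag_of_lost hlost ha (by rwa [e])).2
    have e2 : a + a = a + d + (a + d) - (d + d) := by abel
    rw [e2, h2, sub_self])
  have h3 : ((tr d A).filter (fun a => -a ∈ tr d B)).card =
      (A.filter (fun a => d + d - a ∈ B)).card := by
    have : (tr d A).filter (fun a => -a ∈ tr d B) = tr d (A.filter (fun a => d + d - a ∈ B)) := by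
      ext x
      rw [mem_filter, mem_tr, mem_tr, mem_tr, mem_filter]
      have e : d + d - (x + d) = -x + d := by abel
      rw [e]
    rw [this, card_tr]
  rwa [rs_tr, card_tr, card_tr, card_tr, h3] at h1

/-- Transport of (L) along an isomorphism. -/
lemma LL.congr {H : Type*} [AddCommGroup H] (e : G ≃+ H) (h : LL G) : LL H := by
  classical
  rw [ll_iff] at h ⊢
  intro A B hA hB hd
  have h1 := h (A.image e.symm) (B.image e.symm) (mem_image.2 ⟨0, hA, map_zero _⟩)
    (mem_image.2 ⟨0, hB, map_zero _⟩) (by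
      intro a ha hb
      rw [mem_image] at ha hb
      obtain ⟨a', ha', rfl⟩ := ha
      obtain ⟨b', hb', hb''⟩ := hb
      have : b' = -a' := e.symm.injective (by rw [hb'', map_neg])
      subst this
      rw [← map_add, hd a' ha' hb', map_zero])
  have hinj := e.symm.injective
  have h2 : rs (A.image e.symm) (B.image e.symm) = (rs A B).image e.symm := by
    ext x
    rw [mem_rs, mem_image]
    constructor
    · rintro ⟨a, ha, b, hb, hne, rfl⟩
      rw [mem_image] at ha hb
      obtain ⟨a', ha', rfl⟩ := ha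
      obtain ⟨b', hb', rfl⟩ := hb
      refine ⟨a' + b', mem_rs.2 ⟨a', ha', b', hb', fun h => hne (by rw [h]), rfl⟩, map_add _ _ _⟩
    · rintro ⟨y, hy, rfl⟩
      rw [mem_rs] at hy
      obtain ⟨a, ha, b, hb, hne, rfl⟩ := hy
      exact ⟨_, mem_image_of_mem _ ha, _, mem_image_of_mem _ hb, fun h => hne (hinj h),
        (map_add _ _ _).symm⟩
  have h3 : (A.image e.symm).filter (fun a => -a ∈ B.image e.symm) =
      (A.filter (fun a => -a ∈ B)).image e.symm := by
    ext x
    rw [mem_filter, mem_image, mem_image, mem_image]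
    constructor
    · rintro ⟨⟨a, ha, rfl⟩, b, hb, hb'⟩
      have : b = -a := hinj (by rw [hb', map_neg])
      subst this
      exact ⟨a, mem_filter.2 ⟨ha, hb⟩, rfl⟩
    · rintro ⟨a, ha, rfl⟩
      rw [mem_filter] at ha
      exact ⟨⟨a, ha.1, rfl⟩, -a, ha.2, map_neg _ _⟩
  rwa [h2, h3, card_image_of_injective _ hinj, card_image_of_injective _ hinj,
    card_image_of_injective _ hinj, card_image_of_injective _ hinj] at h1

/-- A quotient of a quotient is a quotient. -/
noncomputable def quoQuo (L : AddSubgroup G) (K : AddSubgroup (G ⧸ L)) :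
    G ⧸ (K.comap (QuotientAddGroup.mk' L)) ≃+ (G ⧸ L) ⧸ K := by
  have hker : ((QuotientAddGroup.mk' K).comp (QuotientAddGroup.mk' L)).ker =
      K.comap (QuotientAddGroup.mk' L) := by
    ext x
    simp [AddMonoidHom.mem_ker, AddSubgroup.mem_comap]
  refine (QuotientAddGroup.quotientAddEquivOfEq hker.symm).trans
    (QuotientAddGroup.quotientKerEquivOfSurjective _ ?_)
  exact (QuotientAddGroup.mk'_surjective K).comp (QuotientAddGroup.mk'_surjective L)

lemma HQuo.quoQuo (h : HQuo G) (L : AddSubgroup G) (hL : L ≠ ⊥) (K : AddSubgroup (G ⧸ L)) :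
    LL ((G ⧸ L) ⧸ K) := by
  apply LL.congr (Pool.Agent.Work.MP_59976d_co.quoQuo L K)
  apply h
  intro hbot
  apply hL
  rw [eq_bot_iff, ← hbot]
  intro x hx
  rw [AddSubgroup.mem_comap]
  have : QuotientAddGroup.mk' L x = 0 := by
    rw [QuotientAddGroup.mk'_apply]
    exact (QuotientAddGroup.eq_zero_iff x).2 hx
  rw [this]
  exact K.zero_mem

lemma RestrictedScherk.congr {H : Type*} [AddCommGroup H] (e : G ≃+ H) (h : RestrictedScherk G) :
    RestrictedScherk H := by
  classical
  rw [restrictedScherk_iff]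
  intro A B hadm
  exact of_injective h e.toAddMonoidHom e.injective A B hadm
    (fun a _ => e.surjective a) (fun a _ => e.surjective a)

end basic

section involution

variable {G : Type*} [AddCommGroup G]

lemma mem_zm {σ : G} (h2 : σ + σ = 0) {x : G} :
    x ∈ AddSubgroup.zmultiples σ ↔ x = 0 ∨ x = σ := by
  rw [AddSubgroup.mem_zmultiples_iff]
  constructor
  · rintro ⟨k, rfl⟩
    rcases Int.even_or_odd k with ⟨m, hm⟩ | ⟨m, hm⟩
    · left
      rw [hm, add_zsmul, ← zsmul_add, h2, zsmul_zero]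
    · right
      rw [hm, add_zsmul, two_mul, add_zsmul, ← zsmul_add, h2, zsmul_zero, zero_add, one_zsmul]
  · rintro (rfl | rfl)
    · exact ⟨0, zero_zsmul _⟩
    · exact ⟨1, one_zsmul _⟩

lemma card_zm {σ : G} (h0 : σ ≠ 0) (h2 : σ + σ = 0) :
    Nat.card (AddSubgroup.zmultiples σ) = 2 := by
  rw [Nat.card_zmultiples]
  apply addOrderOf_eq_prime
  · rw [two_nsmul]; exact h2
  · exact h0

/-- Two elements are in the same class iff they differ by `0` or `σ`. -/
lemma mk_eq_iff_two {σ : G} (h2 : σ + σ = 0) {x y : G} :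
    (QuotientAddGroup.mk x : G ⧸ AddSubgroup.zmultiples σ) = QuotientAddGroup.mk y ↔
      y = x ∨ y = x + σ := by
  rw [QuotientAddGroup.eq, mem_zm h2]
  constructor
  · rintro (h | h)
    · left; rw [← sub_eq_zero, ← h]; abel
    · right; rw [← h]; abel
  · rintro (h | h)
    · left; rw [h]; abel
    · right; rw [h]; abel

/-- The fibre over the class of `x`. -/
lemma part_mk [DecidableEq G] {σ : G} (h2 : σ + σ = 0) (A : Finset G) (x : G) :
    part (AddSubgroup.zmultiples σ) A (QuotientAddGroup.mk x) = A.filter (fun a => a = x ∨ a = x + σ) := by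
  ext a
  rw [mem_part, mem_filter, eq_comm (a := (QuotientAddGroup.mk a : G ⧸ _)), mk_eq_iff_two h2]

lemma card_part_eq_two_iff [DecidableEq G] {σ : G} (h0 : σ ≠ 0) (h2 : σ + σ = 0) (A : Finset G)
    (x : G) : (part (AddSubgroup.zmultiples σ) A (QuotientAddGroup.mk x)).card = 2 ↔
      x ∈ A ∧ x + σ ∈ A := by
  rw [part_mk h2]
  have hne : x ≠ x + σ := fun h => h0 (by simpa using h)
  constructor
  · intro h
    have hsub : A.filter (fun a => a = x ∨ a = x + σ) ⊆ {x, x + σ} := by
      intro a ha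
      rw [mem_filter] at ha
      rw [mem_insert, mem_singleton]
      exact ha.2
    have h3 : A.filter (fun a => a = x ∨ a = x + σ) = {x, x + σ} := by
      apply eq_of_subset_of_card_le hsub
      rw [card_pair hne, h]
    constructor
    · have : x ∈ A.filter (fun a => a = x ∨ a = x + σ) := by rw [h3]; simp
      exact (mem_filter.1 this).1
    · have : x + σ ∈ A.filter (fun a => a = x ∨ a = x + σ) := by rw [h3]; simp
      exact (mem_filter.1 this).1
  · rintro ⟨h1, h3⟩
    have h4 : A.filter (fun a => a = x ∨ a = x + σ) = {x, x + σ} := by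
      ext a
      rw [mem_filter, mem_insert, mem_singleton]
      constructor
      · exact fun h => h.2
      · rintro (rfl | rfl)
        · exact ⟨h1, Or.inl rfl⟩
        · exact ⟨h3, Or.inr rfl⟩
    rw [h4, card_pair hne]

lemma one_le_card_part_iff [DecidableEq G] {σ : G} (h2 : σ + σ = 0) (A : Finset G)
    (x : G) : 1 ≤ (part (AddSubgroup.zmultiples σ) A (QuotientAddGroup.mk x)).card ↔
      x ∈ A ∨ x + σ ∈ A := by
  rw [part_mk h2, Nat.one_le_iff_ne_zero, ← Nat.pos_iff_ne_zero, card_pos]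
  constructor
  · rintro ⟨a, ha⟩
    rw [mem_filter] at ha
    rcases ha with ⟨ha, rfl | rfl⟩
    · exact Or.inl ha
    · exact Or.inr ha
  · rintro (h | h)
    · exact ⟨x, mem_filter.2 ⟨h, Or.inl rfl⟩⟩
    · exact ⟨x + σ, mem_filter.2 ⟨h, Or.inr rfl⟩⟩

/-- The classes meeting `A`. -/
noncomputable def L1 [Finite G] (σ : G) (A : Finset G) : Finset (G ⧸ AddSubgroup.zmultiples σ) :=
  (Set.toFinite {i : G ⧸ AddSubgroup.zmultiples σ | 1 ≤ (part _ A i).card}).toFinset

/-- The classes inside `A`. -/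
noncomputable def L2 [Finite G] (σ : G) (A : Finset G) : Finset (G ⧸ AddSubgroup.zmultiples σ) :=
  (Set.toFinite {i : G ⧸ AddSubgroup.zmultiples σ | (part _ A i).card = 2}).toFinset

lemma mem_L1 [Finite G] {σ : G} {A : Finset G} {i : G ⧸ AddSubgroup.zmultiples σ} :
    i ∈ L1 σ A ↔ 1 ≤ (part _ A i).card := by
  unfold L1
  rw [Set.Finite.mem_toFinset, Set.mem_ofPred_eq]

lemma mem_L2 [Finite G] {σ : G} {A : Finset G} {i : G ⧸ AddSubgroup.zmultiples σ} :
    i ∈ L2 σ A ↔ (part _ A i).card = 2 := by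
  unfold L2
  rw [Set.Finite.mem_toFinset, Set.mem_ofPred_eq]

lemma mk_mem_L1 [Finite G] {σ : G} (h2 : σ + σ = 0) {A : Finset G} {x : G} :
    (QuotientAddGroup.mk x : G ⧸ AddSubgroup.zmultiples σ) ∈ L1 σ A ↔ x ∈ A ∨ x + σ ∈ A := by
  classical
  rw [mem_L1, one_le_card_part_iff h2]

lemma mk_mem_L2 [Finite G] {σ : G} (h0 : σ ≠ 0) (h2 : σ + σ = 0) {A : Finset G} {x : G} :
    (QuotientAddGroup.mk x : G ⧸ AddSubgroup.zmultiples σ) ∈ L2 σ A ↔ x ∈ A ∧ x + σ ∈ A := by
  classical
  rw [mem_L2, card_part_eq_two_iff h0 h2]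

lemma L2_subset_L1 [Finite G] {σ : G} {A : Finset G} : L2 σ A ⊆ L1 σ A := by
  intro i hi
  rw [mem_L2] at hi
  rw [mem_L1]
  omega

/-- `|A| = |A¹| + |A²|`. -/
lemma card_eq_L1_add_L2 [Finite G] {σ : G} (h0 : σ ≠ 0) (h2 : σ + σ = 0) (A : Finset G) :
    A.card = (L1 σ A).card + (L2 σ A).card := by
  classical
  haveI : Fintype (G ⧸ AddSubgroup.zmultiples σ) := Fintype.ofFinite _
  have hle : ∀ i : G ⧸ AddSubgroup.zmultiples σ, (part _ A i).card ≤ 2 := by
    intro i
    have := card_part_le (AddSubgroup.zmultiples σ) A i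
    rwa [card_zm h0 h2] at this
  rw [card_eq_sum_part (AddSubgroup.zmultiples σ) A]
  have e1 : L1 σ A = univ.filter (fun i => 1 ≤ (part _ A i).card) := by
    ext i; rw [mem_L1, mem_filter]; simp
  have e2 : L2 σ A = univ.filter (fun i => (part _ A i).card = 2) := by
    ext i; rw [mem_L2, mem_filter]; simp
  rw [e1, e2, card_filter, card_filter, ← sum_add_distrib]
  apply sum_congr rfl
  intro i _
  have := hle i
  split_ifs <;> omega

end involution

end Pool.Agent.Work.MP_59976d_co
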