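import Pool.Agent.Work.MP_59976d_co_odd.Defs
import Pool.Agent.Work.MP_59976d_co.Main

/-!
Definitions for the proof of the restricted Scherk inequality in all finite abelian groups.
-/

namespace Pool.Agent.Work.MP_59976d_co

open Finset
open scoped Pointwise

/-- (L): the inequality for a lost sum with several diagonal representations, recentred at one of
them. If `0 ∈ A ∩ B` and every representation `0 = a + (-a)` has `a = -a`, then
`|A| + |B| ≤ |A ∔ B| + #{representations of 0} + 2`. -/
def LL (G : Type*) [AddCommGroup G] : Prop :=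
  ∀ A B : Finset G, (0 : G) ∈ A → (0 : G) ∈ B → (∀ a ∈ A, -a ∈ B → a + a = 0) →
    A.card + B.card ≤ {x : G | ∃ a ∈ A, ∃ b ∈ B, a ≠ b ∧ a + b = x}.ncard +
      {a : G | a ∈ A ∧ -a ∈ B}.ncard + 2

/-- `HSub G`: (L) for all proper subgroups. -/
def HSub (G : Type*) [AddCommGroup G] : Prop := ∀ H : AddSubgroup G, H ≠ ⊤ → LL H

/-- `HQuo G`: (L) for all proper quotients. -/
def HQuo (G : Type*) [AddCommGroup G] : Prop := ∀ H : AddSubgroup G, H ≠ ⊥ → LL (G ⧸ H)

/-- A counterexample to Q1 with `B ⊆ A`. -/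
structure CE {G : Type*} [AddCommGroup G] [DecidableEq G] (A B : Finset G) : Prop where
  adm : Adm A B
  sub : B ⊆ A
  def4 : (rs A B).card + 4 ≤ A.card + B.card

/-- The core configuration: a counterexample in a group with a unique involution `σ`, with all
fibres of order two at most half full. -/
structure Core {G : Type*} [AddCommGroup G] [DecidableEq G] (A B : Finset G) (σ : G) : Prop where
  ce : CE A B
  ne : σ ≠ 0
  two : σ + σ = 0
  uniq : ∀ w : G, w + w = 0 → w = 0 ∨ w = σ
  A1 : ∀ a ∈ A, a + σ ∉ A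
  B1 : ∀ b ∈ B, b + σ ∉ B
  C1 : ∀ g : G, g ∈ rs A B ∨ g + σ ∈ rs A B
  /-- every lost sum is uniquely represented -/
  lost : ∀ d ∈ A, d ∈ B → d + d ∉ rs A B → ∀ a ∈ A, d + d - a ∈ B → a = d
  big : Nat.card G + 8 ≤ 2 * (A.card + B.card)

end Pool.Agent.Work.MP_59976d_co
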