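import Pool.Agent.Work.MP_59976d_co_even.Defs
import Pool.Agent.Work.MP_59976d_co_odd.Interface

/-!
Exact statements of the blocks of the proof of the restricted Scherk inequality for all finite
abelian groups.  See `BLUEPRINT.md` in this folder.
-/

namespace Pool.Agent.Work.MP_59976d_co

open Finset
open scoped Pointwise

universe u

/-- (KS) Kemperman–Scherk. -/
def Stmt_KS : Prop :=
  ∀ (G : Type u) [AddCommGroup G] [Finite G] [DecidableEq G] (X Y : Finset G) (z : G),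
    z ∈ X + Y → X.card + Y.card ≤ (X + Y).card + (X.filter (fun x => z - x ∈ Y)).card

/-- (E0) It suffices to treat uniquely represented lost sums. -/
def Stmt_E0 : Prop :=
  ∀ (G : Type u) [AddCommGroup G] [Finite G], HQuo G → RestrictedScherk G → LL G

/-- (S1) An involution in `A ∪ B`. -/
def Stmt_S1 : Prop :=
  ∀ (G : Type u) [AddCommGroup G] [Finite G] [DecidableEq G] (A B : Finset G) (σ : G),
    σ ≠ 0 → σ + σ = 0 → RestrictedScherk (G ⧸ AddSubgroup.zmultiples σ) → Adm A B →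
    (σ ∈ A ∨ σ ∈ B) → A.card + B.card ≤ (rs A B).card + 3

/-- (S2a) An involution outside `A + B`. -/
def Stmt_S2a : Prop :=
  ∀ (G : Type u) [AddCommGroup G] [Finite G] [DecidableEq G] (A B : Finset G) (σ : G),
    σ ≠ 0 → σ + σ = 0 → RestrictedScherk (G ⧸ AddSubgroup.zmultiples σ) → Adm A B →
    σ ∉ A + B → A.card + B.card ≤ (rs A B).card + 3

/-- (S2b) An involution `a + a` that is lost. -/
def Stmt_S2b : Prop :=
  ∀ (G : Type u) [AddCommGroup G] [Finite G] [DecidableEq G] (A B : Finset G) (a : G),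
    a + a ≠ 0 → a + a + (a + a) = 0 → RestrictedScherk (G ⧸ AddSubgroup.zmultiples a) →
    Adm A B → B ⊆ A → (∀ w ∈ A, w + w = 0 → w = 0) → a ∈ B → a + a ∉ rs A B →
    A.card + B.card ≤ (rs A B).card + 3

/-- (S3) A lost sum with two representations. -/
def Stmt_S3 : Prop :=
  ∀ (G : Type u) [AddCommGroup G] [Finite G] [DecidableEq G],
    (∀ H : AddSubgroup G, H ≠ ⊥ → RestrictedScherk (G ⧸ H)) →
    ∀ (A B : Finset G), Adm A B → (∀ w, (w ∈ A ∨ w ∈ B) → w + w = 0 → w = 0) →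
    (∀ w : G, w + w = 0 → w ≠ 0 → w ∈ rs A B) →
    ∀ x y : G, x ∈ A → x ∈ B → y ∈ A → y ∈ B → x ≠ y → x + x = y + y → x + x ∉ rs A B →
      A.card + B.card ≤ (rs A B).card + 3

/-- (S4) Fibres of order two. -/
def Stmt_S4 : Prop :=
  ∀ (G : Type u) [AddCommGroup G] [Finite G] [DecidableEq G], HSub G →
    ∀ (A B : Finset G), Adm A B → (rs A B).card + 4 ≤ A.card + B.card →
    ∀ σ : G, σ ≠ 0 → σ + σ = 0 →
    (∀ i j : G ⧸ AddSubgroup.zmultiples σ, 1 ≤ (part _ A i).card → 1 ≤ (part _ B j).card →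
      min 2 ((part _ A i).card + (part _ B j).card - 1) ≤ (part _ (rs A B) (i + j)).card) →
    (∀ a ∈ A, a + σ ∉ A) ∧ (∀ b ∈ B, b + σ ∉ B)

/-- (S5) Passage to the quotient by an involution: there is only one involution, and the
restricted sumset meets all its cosets. -/
def Stmt_S5 : Prop :=
  ∀ (G : Type u) [AddCommGroup G] [Finite G] [DecidableEq G], HSub G → HQuo G →
    ∀ (A B : Finset G), Adm A B → (rs A B).card + 4 ≤ A.card + B.card →
    (∀ w : G, w ≠ 0 → w + w = 0 → (∀ a ∈ A, a + w ∉ A) ∧ (∀ b ∈ B, b + w ∉ B)) →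
    (∀ w : G, w ≠ 0 → w + w = 0 → ∀ d ∈ A, d ∈ B → d + d ∈ rs A B ∨ d + d + w ∈ rs A B) →
    ∀ σ : G, σ ≠ 0 → σ + σ = 0 →
      (∀ w : G, w + w = 0 → w = 0 ∨ w = σ) ∧ (∀ g : G, g ∈ rs A B ∨ g + σ ∈ rs A B) ∧
      Nat.card G + 8 ≤ 2 * (A.card + B.card)

/-- (LvE1) Level lemma over an even base, case `c₀ = a₀ + b₀ - 3`. -/
def Stmt_LvE1 : Prop :=
  ∀ (R : Type u) [AddCommGroup R] [Fintype R] [DecidableEq R], LL R →
    ∀ τ : R, τ ≠ 0 → τ + τ = 0 → (∀ x : R, x + x = 0 → x = 0 ∨ x = τ) →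
    ∀ (P n : ℕ) (α β γ : R → ℕ), (∀ i, α i ≤ P) → (∀ i, β i ≤ P) →
      2 ≤ n → α 0 = n → β 0 = n → γ 0 + 3 = 2 * n → 2 * n ≤ P + 1 →
      (∀ i j, i ≠ j → 1 ≤ α i → 1 ≤ β j → min P (α i + β j - 1) ≤ γ (i + j)) →
      (∀ i, i ≠ 0 → i ≠ τ → 1 ≤ α i → 1 ≤ β i → min P (α i + β i - 3) ≤ γ (i + i)) →
      α τ + β τ ≤ γ τ →
      (1 ≤ α τ → 1 ≤ β τ → α τ + β τ + 1 ≤ 2 * n ∨ (α τ = n ∧ β τ = n)) →
      ∑ i ∈ univ.erase 0, (α i + β i) ≤ ∑ i ∈ univ.erase 0, γ i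

/-- (LvE0) Level lemma over an even base, case `c₀ = a₀ + b₀ - 2`. -/
def Stmt_LvE0 : Prop :=
  ∀ (R : Type u) [AddCommGroup R] [Fintype R] [DecidableEq R], LL R →
    ∀ τ : R, τ ≠ 0 → τ + τ = 0 → (∀ x : R, x + x = 0 → x = 0 ∨ x = τ) →
    ∀ (P : ℕ) (α β γ : R → ℕ), (∀ i, α i ≤ P) → (∀ i, β i ≤ P) →
      1 ≤ α 0 → 1 ≤ β 0 → γ 0 + 2 = α 0 + β 0 → γ 0 + 1 ≤ P →
      (∀ i j, i ≠ j → 1 ≤ α i → 1 ≤ β j → min P (α i + β j - 1) ≤ γ (i + j)) →
      (∀ i, i ≠ 0 → i ≠ τ → 1 ≤ α i → 1 ≤ β i → min P (α i + β i - 2) ≤ γ (i + i)) →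
      (1 ≤ α τ → 1 ≤ β τ → α τ + β τ + 1 ≤ α 0 + β 0 ∨
        (α τ + β τ = α 0 + β 0 ∧ α 0 + β 0 ≤ γ τ)) →
      ∑ i ∈ univ.erase 0, (α i + β i) ≤ ∑ i ∈ univ.erase 0, γ i + 1

/-- (LvZ) Level lemma over an even base, the exceptional type. -/
def Stmt_LvZ : Prop :=
  ∀ (R : Type u) [AddCommGroup R] [Fintype R] [DecidableEq R] (τ : R),
    τ ≠ 0 → τ + τ = 0 → (∀ x : R, x + x = 0 → x = 0 ∨ x = τ) →
    RestrictedScherk (R ⧸ AddSubgroup.zmultiples τ) →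
    ∀ (P : ℕ) (α β γ : R → ℕ), (∀ i, β i ≤ α i) → (∀ i, α i + α (i + τ) ≤ P) →
      1 ≤ β 0 → α τ = α 0 → β τ = β 0 → γ 0 + 2 = α 0 + β 0 → γ τ + 1 = α 0 + β 0 →
      α 0 + β 0 ≤ P → P + 3 ≤ 2 * (α 0 + β 0) →
      (∀ i j, i ≠ j → 1 ≤ α i → 1 ≤ β j → min P (α i + β j - 1) ≤ γ (i + j)) →
      (∀ i, i ≠ 0 → i ≠ τ → 1 ≤ α i → 1 ≤ β i → min P (α i + β i - 2) ≤ γ (i + i)) →
      (∀ i j, j ≠ i → j ≠ i + τ → α 0 ≤ α i → α 0 ≤ α (i + τ) → β 0 ≤ β j → β 0 ≤ β (j + τ) →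
        α 0 + β 0 ≤ γ (i + j) ∨ α 0 + β 0 ≤ γ (i + j + τ)) →
      ∑ i ∈ (univ.erase 0).erase τ, (α i + β i) ≤ ∑ i ∈ (univ.erase 0).erase τ, γ i

/-- (H6) Sums of two pairs of neighbouring fibres. -/
def Stmt_H6 : Prop :=
  ∀ (G : Type u) [AddCommGroup G] [Finite G] [DecidableEq G] (L : AddSubgroup G),
    (Nat.card L).Prime → Nat.card L ≠ 2 → ∀ σ : G, σ ≠ 0 → σ + σ = 0 →
    ∀ (X Y : Finset G) (i j : G ⧸ L) (a b : ℕ), (∀ x ∈ X, x + σ ∉ X) → (∀ y ∈ Y, y + σ ∉ Y) →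
      1 ≤ a → 1 ≤ b → a + b ≤ Nat.card L →
      a ≤ (part L X i).card → a ≤ (part L X (i + QuotientAddGroup.mk σ)).card →
      b ≤ (part L Y j).card → b ≤ (part L Y (j + QuotientAddGroup.mk σ)).card →
      a + b ≤ (part L (X + Y) (i + j)).card ∨
        a + b ≤ (part L (X + Y) (i + j + QuotientAddGroup.mk σ)).card

/-- (LCE) Fibres over a subgroup of odd prime order. -/
def Stmt_LCaseE : Prop :=
  ∀ (G : Type u) [AddCommGroup G] [Fintype G] [DecidableEq G], HSub G → HQuo G →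
    ∀ (A B : Finset G) (σ : G), Core A B σ →
    ∀ (L : AddSubgroup G), (Nat.card L).Prime → Nat.card L ≠ 2 → Nat.card G ≠ 2 * Nat.card L →
      ∀ i j : G ⧸ L, 1 ≤ (part L A i).card → 1 ≤ (part L B j).card →
        min (Nat.card L) ((part L A i).card + (part L B j).card - 1) ≤
          (part L (rs A B) (i + j)).card

/-- (ELE) Elimination of the second alternative of the structure lemma. -/
def Stmt_ElimE : Prop :=
  ∀ (G : Type u) [AddCommGroup G] [Fintype G] [DecidableEq G], HSub G →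
    ∀ (A B : Finset G) (σ : G), Core A B σ →
    ∀ (L : AddSubgroup G) [Fintype (G ⧸ L)], (Nat.card L).Prime → Nat.card L ≠ 2 →
      (∀ L' : AddSubgroup G, (Nat.card L').Prime → Nat.card L' < Nat.card L → ∀ x y : G ⧸ L',
        (part L' A x).card + (part L' B y).card ≤ Nat.card L') →
      ∀ (K : AddSubgroup (G ⧸ L)) (m m' g : G ⧸ L → ℕ),
        Heights (Nat.card L) (fun i => (part L A i).card) (fun i => (part L B i).card)
          (fun i => (part L (rs A B) i).card) K m m' g →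
        ¬ ((∃ y, y ∉ K ∧ 1 ≤ m' y ∧ g y + 1 = m 0 + m' y ∧ g y + 1 ≤ Nat.card L) ∧
          (∃ x, x ∉ K ∧ 1 ≤ m x ∧ g x + 1 = m x + m' 0 ∧ g x + 1 ≤ Nat.card L) ∧
          (∃ x, x ∉ K ∧ 1 ≤ m x ∧ 1 ≤ m' (-x) ∧ g 0 + 1 = m x + m' (-x)))

/-- (P1E) The core configuration satisfies (**), unless `|G| = 2p`. -/
def Stmt_PartIE : Prop :=
  ∀ (G : Type u) [AddCommGroup G] [Finite G] [DecidableEq G], HSub G → HQuo G →
    ∀ (A B : Finset G) (σ : G), Core A B σ →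
    (∀ p : ℕ, p.Prime → p ≠ 2 → Nat.card G ≠ 2 * p) → SS A B

open Classical in
/-- (S8) The end game in a subgroup of index two. -/
def Stmt_S8 : Prop :=
  ∀ (G : Type u) [AddCommGroup G] [Finite G] [DecidableEq G] (A B : Finset G) (σ : G),
    Core A B σ → ∀ N : AddSubgroup G, Nat.card G = 2 * Nat.card N → LL N →
    SS (A.filter (fun a => a ∈ N)) (B.filter (fun b => b ∉ N)) →
    SS (A.filter (fun a => a ∉ N)) (B.filter (fun b => b ∈ N)) →
    (SS (A.filter (fun a => a ∉ N)) (B.filter (fun b => b ∉ N)) ∨ (Nat.card N).Prime) → False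

open Classical in
/-- (I2) The inequality I2 of the end game (part of the proof of S8, also needed for `|G| = 2p`). -/
def Stmt_I2 : Prop :=
  ∀ (G : Type u) [AddCommGroup G] [Finite G] [DecidableEq G] (A B : Finset G) (σ : G),
    Core A B σ → ∀ N : AddSubgroup G, Nat.card G = 2 * Nat.card N → LL N →
    (A.filter (fun a => a ∉ N)).Nonempty → (B.filter (fun b => b ∉ N)).Nonempty →
    (SS (A.filter (fun a => a ∉ N)) (B.filter (fun b => b ∉ N)) ∨ (Nat.card N).Prime) →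
    (A.filter (fun a => a ∉ N)).card + (B.filter (fun b => b ∉ N)).card ≤
      ((rs A B).filter (fun c => c ∈ N)).card + 3

/-- The final statement. -/
def Stmt_Fin : Prop := ∀ (G : Type u) [AddCommGroup G] [Finite G], LL G

end Pool.Agent.Work.MP_59976d_co
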