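import Pool.Agent.Work.MP_59976d_co_even.Alt
import Pool.Agent.Work.MP_59976d_co_even.Interface

/-!
Elimination of the second alternative of the structure lemma, even case (block ElimE).
-/

namespace Pool.Agent.Work.MP_59976d_co

open Finset
open scoped Pointwise

universe u

section final

variable {G : Type u} [AddCommGroup G] [Fintype G] [DecidableEq G]

/-- The counting argument. -/
lemma count_Mset' (H₁ H₂ H₃ : AddSubgroup G) (A B C : Finset G)
    (hC : ∀ a ∈ A, ∀ b ∈ B, a ≠ b → a + b ∈ C) (h2 : ∀ x ∈ H₁, x + x ∈ H₃ → x ∈ H₃)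
    (N₁ N₂ N₃ : Finset G) (hN₁ : ∀ h ∈ H₁, h ∉ A → h ∈ N₁) (hN₂ : ∀ h ∈ H₂, h ∉ B → h ∈ N₂)
    (hN₃ : ∀ h ∈ H₃, h ∈ C → h ∈ N₃) :
    (Mset H₁ H₂ H₃).card ≤ Nat.card (H₂ ⊓ H₃ : AddSubgroup G) * N₁.card +
      Nat.card (H₁ ⊓ H₃ : AddSubgroup G) * N₂.card +
      Nat.card (H₁ ⊓ H₂ : AddSubgroup G) * N₃.card +
      Nat.card (H₁ ⊓ H₂ ⊓ H₃ : AddSubgroup G) := by
  classical
  set M := Mset H₁ H₂ H₃ with hM
  set M₁ := M.filter (fun z => z.1 ∈ N₁) with hM₁
  set M₂ := M.filter (fun z => z.2 ∈ N₂) with hM₂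
  set M₃ := M.filter (fun z => z.1 + z.2 ∈ N₃) with hM₃
  set M₄ := M.filter (fun z => z.1 = z.2) with hM₄
  have hcover : M ⊆ M₁ ∪ M₂ ∪ M₃ ∪ M₄ := by
    intro z hz
    have hz' := mem_Mset.1 hz
    simp only [mem_union, hM₁, hM₂, hM₃, hM₄, mem_filter]
    by_cases hA : z.1 ∈ A
    · by_cases hB : z.2 ∈ B
      · by_cases hd : z.1 = z.2
        · exact Or.inr ⟨hz, hd⟩
        · exact Or.inl (Or.inr ⟨hz, hN₃ _ hz'.2.2 (hC _ hA _ hB hd)⟩)
      · exact Or.inl (Or.inl (Or.inr ⟨hz, hN₂ _ hz'.2.1 hB⟩))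
    · exact Or.inl (Or.inl (Or.inl ⟨hz, hN₁ _ hz'.1 hA⟩))
  have hc1 : M₁.card ≤ Nat.card (H₂ ⊓ H₃ : AddSubgroup G) * N₁.card := by
    apply card_le_mul_card_image_of_maps_to (f := fun z : G × G => z.1)
    · intro z hz; exact (mem_filter.1 hz).2
    · intro b _
      rw [← card_image_of_injOn (f := fun z : G × G => z.2)]
      · apply card_le_of_diff
        intro x hx y hy
        rw [mem_image] at hx hy
        obtain ⟨z, hz, rfl⟩ := hx
        obtain ⟨w, hw, rfl⟩ := hy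
        rw [mem_filter, hM₁, mem_filter, hM, mem_Mset] at hz hw
        obtain ⟨⟨⟨_, hz2, hz3⟩, _⟩, hz1⟩ := hz
        obtain ⟨⟨⟨_, hw2, hw3⟩, _⟩, hw1⟩ := hw
        refine ⟨H₂.sub_mem hz2 hw2, ?_⟩
        have := H₃.sub_mem hz3 hw3
        rw [hz1, hw1] at this
        simpa using this
      · intro z hz w hw hzw
        simp only [coe_filter, Set.mem_ofPred_eq] at hz hw
        exact Prod.ext (hz.2.trans hw.2.symm) hzw
  have hc2 : M₂.card ≤ Nat.card (H₁ ⊓ H₃ : AddSubgroup G) * N₂.card := by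
    apply card_le_mul_card_image_of_maps_to (f := fun z : G × G => z.2)
    · intro z hz; exact (mem_filter.1 hz).2
    · intro b _
      rw [← card_image_of_injOn (f := fun z : G × G => z.1)]
      · apply card_le_of_diff
        intro x hx y hy
        rw [mem_image] at hx hy
        obtain ⟨z, hz, rfl⟩ := hx
        obtain ⟨w, hw, rfl⟩ := hy
        rw [mem_filter, hM₂, mem_filter, hM, mem_Mset] at hz hw
        obtain ⟨⟨⟨hz1, _, hz3⟩, _⟩, hz2⟩ := hz
        obtain ⟨⟨⟨hw1, _, hw3⟩, _⟩, hw2⟩ := hw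
        refine ⟨H₁.sub_mem hz1 hw1, ?_⟩
        have := H₃.sub_mem hz3 hw3
        rw [hz2, hw2] at this
        simpa using this
      · intro z hz w hw hzw
        simp only [coe_filter, Set.mem_ofPred_eq] at hz hw
        exact Prod.ext hzw (hz.2.trans hw.2.symm)
  have hc3 : M₃.card ≤ Nat.card (H₁ ⊓ H₂ : AddSubgroup G) * N₃.card := by
    apply card_le_mul_card_image_of_maps_to (f := fun z : G × G => z.1 + z.2)
    · intro z hz; exact (mem_filter.1 hz).2
    · intro b _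
      rw [← card_image_of_injOn (f := fun z : G × G => z.1)]
      · apply card_le_of_diff
        intro x hx y hy
        rw [mem_image] at hx hy
        obtain ⟨z, hz, rfl⟩ := hx
        obtain ⟨w, hw, rfl⟩ := hy
        rw [mem_filter, hM₃, mem_filter, hM, mem_Mset] at hz hw
        obtain ⟨⟨⟨hz1, hz2, _⟩, _⟩, hz3⟩ := hz
        obtain ⟨⟨⟨hw1, hw2, _⟩, _⟩, hw3⟩ := hw
        refine ⟨H₁.sub_mem hz1 hw1, ?_⟩
        have := H₂.sub_mem hw2 hz2
        have h5 : w.2 - z.2 = z.1 - w.1 := by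
          have h6 := hz3.trans hw3.symm
          rw [sub_eq_sub_iff_add_eq_add, add_comm w.2, add_comm z.1 z.2, add_comm z.2 z.1]
          exact h6.symm
        rwa [h5] at this
      · intro z hz w hw hzw
        simp only [coe_filter, Set.mem_ofPred_eq] at hz hw
        refine Prod.ext hzw ?_
        have h6 := hz.2.trans hw.2.symm
        have h7 : z.1 = w.1 := hzw
        rw [h7] at h6
        exact add_left_cancel h6
  have hc4 : M₄.card ≤ Nat.card (H₁ ⊓ H₂ ⊓ H₃ : AddSubgroup G) := by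
    rw [← card_image_of_injOn (f := fun z : G × G => z.1)]
    · apply card_le_of_diff
      intro x hx y hy
      rw [mem_image] at hx hy
      obtain ⟨z, hz, rfl⟩ := hx
      obtain ⟨w, hw, rfl⟩ := hy
      rw [hM₄, mem_filter, hM, mem_Mset] at hz hw
      obtain ⟨⟨hz1, hz2, hz3⟩, hz4⟩ := hz
      obtain ⟨⟨hw1, hw2, hw3⟩, hw4⟩ := hw
      apply AddSubgroup.sub_mem
      · rw [← hz4] at hz2 hz3
        exact ⟨⟨hz1, hz2⟩, h2 _ hz1 hz3⟩
      · rw [← hw4] at hw2 hw3
        exact ⟨⟨hw1, hw2⟩, h2 _ hw1 hw3⟩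
    · intro z hz w hw hzw
      simp only [hM₄, coe_filter, Set.mem_ofPred_eq] at hz hw
      refine Prod.ext hzw ?_
      rw [← hz.2, ← hw.2]
      exact hzw
  have h5 := card_le_card hcover
  have h6 := card_union_le (M₁ ∪ M₂ ∪ M₃) M₄
  have h7 := card_union_le (M₁ ∪ M₂) M₃
  have h8 := card_union_le M₁ M₂
  omega

/-- The final count for three subgroups. -/
lemma final_count' (A B C : Finset G)
    (hC : ∀ a ∈ A, ∀ b ∈ B, a ≠ b → a + b ∈ C) (hA0 : (0 : G) ∈ A) (hB0 : (0 : G) ∈ B)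
    (huniq : ∀ a ∈ A, -a ∈ B → a = 0)
    (H₁ H₂ H₃ N : AddSubgroup G) (hhalf : ∀ x ∈ H₁, x + x ∈ H₃ → x ∈ H₃) (n₁ n₂ n₃ : ℕ) (N₁ N₂ N₃ : Finset G)
    (hN₁ : ∀ h ∈ H₁, h ∉ A → h ∈ N₁) (hN₂ : ∀ h ∈ H₂, h ∉ B → h ∈ N₂)
    (hN₃ : ∀ h ∈ H₃, h ∈ C → h ∈ N₃) (hc₁ : N₁.card ≤ n₁) (hc₂ : N₂.card ≤ n₂)
    (hc₃ : N₃.card ≤ n₃) (h1 : n₁ + n₂ + n₃ + 4 ≤ Nat.card H₁)
    (h2 : n₁ + n₂ + n₃ + 4 ≤ Nat.card H₂) (h3 : n₁ + n₂ + n₃ + 4 ≤ Nat.card H₃)
    (hH₁ : H₁ ≤ N) (hH₂ : H₂ ≤ N) (hH₃ : H₃ ≤ N) (k p : ℕ) (hp : p.Prime)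
    (hk : Nat.card N = k * p)
    (hsome : Nat.card H₁ = k ∨ Nat.card H₂ = k ∨ Nat.card H₃ = k)
    (hp1 : ∀ r : ℕ, r.Prime → r ∣ Nat.card H₁ → p ≤ r)
    (hp2 : ∀ r : ℕ, r.Prime → r ∣ Nat.card H₂ → p ≤ r)
    (hp3 : ∀ r : ℕ, r.Prime → r ∣ Nat.card H₃ → p ≤ r) : False := by
  classical
  -- pairwise intersections are small
  have i12 : Nat.card (H₁ ⊓ H₂ : AddSubgroup G) ≤ n₁ + n₂ + 1 := by
    have hsub : (univ.filter (fun h : G => h ∈ H₁ ⊓ H₂)) ⊆
        N₁ ∪ N₂.image (fun h => -h) ∪ {0} := by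
      intro h hh
      rw [mem_filter] at hh
      obtain ⟨_, hh1, hh2⟩ := hh
      rw [mem_union, mem_union, mem_singleton, mem_image]
      by_cases hA : h ∈ A
      · by_cases hB : -h ∈ B
        · exact Or.inr (huniq h hA hB)
        · exact Or.inl (Or.inr ⟨-h, hN₂ _ (H₂.neg_mem hh2) hB, neg_neg h⟩)
      · exact Or.inl (Or.inl (hN₁ _ hh1 hA))
    have hcard : (univ.filter (fun h : G => h ∈ H₁ ⊓ H₂)).card =
        Nat.card (H₁ ⊓ H₂ : AddSubgroup G) := by
      rw [← Fintype.card_subtype, Nat.card_eq_fintype_card]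
    have h5 := card_le_card hsub
    have h6 := card_union_le (N₁ ∪ N₂.image (fun h => -h)) {0}
    have h7 := card_union_le N₁ (N₂.image (fun h => -h))
    have h8 := card_image_le (s := N₂) (f := fun h => -h)
    rw [card_singleton] at h6
    omega
  have i13 : Nat.card (H₁ ⊓ H₃ : AddSubgroup G) ≤ n₁ + n₃ + 1 := by
    have hsub : (univ.filter (fun h : G => h ∈ H₁ ⊓ H₃)) ⊆ N₁ ∪ N₃ ∪ {0} := by
      intro h hh
      rw [mem_filter] at hh
      obtain ⟨_, hh1, hh2⟩ := hh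
      rw [mem_union, mem_union, mem_singleton]
      by_cases hA : h ∈ A
      · by_cases h0 : h = 0
        · exact Or.inr h0
        · refine Or.inl (Or.inr (hN₃ _ hh2 ?_))
          have := hC h hA 0 hB0 h0
          rwa [add_zero] at this
      · exact Or.inl (Or.inl (hN₁ _ hh1 hA))
    have hcard : (univ.filter (fun h : G => h ∈ H₁ ⊓ H₃)).card =
        Nat.card (H₁ ⊓ H₃ : AddSubgroup G) := by
      rw [← Fintype.card_subtype, Nat.card_eq_fintype_card]
    have h5 := card_le_card hsub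
    have h6 := card_union_le (N₁ ∪ N₃) {0}
    have h7 := card_union_le N₁ N₃
    rw [card_singleton] at h6
    omega
  have i23 : Nat.card (H₂ ⊓ H₃ : AddSubgroup G) ≤ n₂ + n₃ + 1 := by
    have hsub : (univ.filter (fun h : G => h ∈ H₂ ⊓ H₃)) ⊆ N₂ ∪ N₃ ∪ {0} := by
      intro h hh
      rw [mem_filter] at hh
      obtain ⟨_, hh1, hh2⟩ := hh
      rw [mem_union, mem_union, mem_singleton]
      by_cases hB : h ∈ B
      · by_cases h0 : h = 0
        · exact Or.inr h0
        · refine Or.inl (Or.inr (hN₃ _ hh2 ?_))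
          have := hC 0 hA0 h hB (fun h' => h0 h'.symm)
          rwa [zero_add] at this
      · exact Or.inl (Or.inl (hN₂ _ hh1 hB))
    have hcard : (univ.filter (fun h : G => h ∈ H₂ ⊓ H₃)).card =
        Nat.card (H₂ ⊓ H₃ : AddSubgroup G) := by
      rw [← Fintype.card_subtype, Nat.card_eq_fintype_card]
    have h5 := card_le_card hsub
    have h6 := card_union_le (N₂ ∪ N₃) {0}
    have h7 := card_union_le N₂ N₃
    rw [card_singleton] at h6
    omega
  -- not nested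
  have m12 : ¬ H₁ ≤ H₂ := fun h => by
    rw [inf_eq_left.2 h] at i12; omega
  have m21 : ¬ H₂ ≤ H₁ := fun h => by
    rw [inf_eq_right.2 h] at i12; omega
  have m13 : ¬ H₁ ≤ H₃ := fun h => by
    rw [inf_eq_left.2 h] at i13; omega
  have m31 : ¬ H₃ ≤ H₁ := fun h => by
    rw [inf_eq_right.2 h] at i13; omega
  have m23 : ¬ H₂ ≤ H₃ := fun h => by
    rw [inf_eq_left.2 h] at i23; omega
  have m32 : ¬ H₃ ≤ H₂ := fun h => by
    rw [inf_eq_right.2 h] at i23; omega
  set t := (Mset H₁ H₂ H₃).card with ht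
  have htcard := card_Mset H₁ H₂ H₃
  obtain ⟨κ, hκ1, hκ2, hκ3, hκ⟩ : ∃ κ, κ ≤ Nat.card H₁ ∧ κ ≤ Nat.card H₂ ∧ κ ≤ Nat.card H₃ ∧
      n₁ + n₂ + n₃ + 4 ≤ κ := ⟨n₁ + n₂ + n₃ + 4, h1, h2, h3, le_refl _⟩
  have hthree : κ * Nat.card (H₁ ⊓ H₂ : AddSubgroup G) ≤ t ∧
      κ * Nat.card (H₁ ⊓ H₃ : AddSubgroup G) ≤ t ∧ κ * Nat.card (H₂ ⊓ H₃ : AddSubgroup G) ≤ t := by
    rcases hsome with hk1 | hk2 | hk3
    · have hN : Nat.card N = Nat.card H₁ * p := by rw [hk, hk1]
      have hsup : H₁ ⊔ H₂ ⊔ H₃ = N := by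
        rw [sup_eq_of_card hH₁ hH₂ hp hN m21]
        exact sup_eq_left.2 hH₃
      rw [hsup] at htcard
      exact final_ineq hH₁ hH₂ hH₃ hp hN m21 m31 m32 hp3 hκ2 hκ3 htcard
    · have hN : Nat.card N = Nat.card H₂ * p := by rw [hk, hk2]
      have hsup : H₁ ⊔ H₂ ⊔ H₃ = N := by
        rw [sup_comm H₁ H₂, sup_eq_of_card hH₂ hH₁ hp hN m12]
        exact sup_eq_left.2 hH₃
      rw [hsup] at htcard
      have := final_ineq hH₂ hH₁ hH₃ hp hN m12 m32 m31 hp3 hκ1 hκ3 (t := t)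
        (by rw [htcard]; ring)
      rw [inf_comm H₂ H₁] at this
      exact ⟨this.1, this.2.2, this.2.1⟩
    · have hN : Nat.card N = Nat.card H₃ * p := by rw [hk, hk3]
      have hsup : H₁ ⊔ H₂ ⊔ H₃ = N := by
        rw [sup_comm, ← sup_assoc, sup_eq_of_card hH₃ hH₁ hp hN m13]
        exact sup_eq_left.2 hH₂
      rw [hsup] at htcard
      have := final_ineq hH₃ hH₁ hH₂ hp hN m13 m23 m21 hp2 hκ1 hκ2 (t := t)
        (by rw [htcard]; ring)
      rw [inf_comm H₃ H₁, inf_comm H₃ H₂] at this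
      exact ⟨this.2.2, this.1, this.2.1⟩
  have hcount := count_Mset' H₁ H₂ H₃ A B C hC hhalf N₁ N₂ N₃
    hN₁ hN₂ hN₃
  rw [← ht] at hcount
  have htpos : 0 < t := by
    rw [ht]
    exact card_pos.2 ⟨(0, 0), mem_Mset.2 ⟨H₁.zero_mem, H₂.zero_mem,
      by simpa using H₃.zero_mem⟩⟩
  have hlast : Nat.card (H₁ ⊓ H₂ ⊓ H₃ : AddSubgroup G) ≤ Nat.card (H₁ ⊓ H₂ : AddSubgroup G) :=
    card_le_of_le' inf_le_left
  have e1 : κ * t ≤ t * n₁ + t * n₂ + t * n₃ + t := by
    calc κ * t ≤ κ * (Nat.card (H₂ ⊓ H₃ : AddSubgroup G) * N₁.card +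
          Nat.card (H₁ ⊓ H₃ : AddSubgroup G) * N₂.card +
          Nat.card (H₁ ⊓ H₂ : AddSubgroup G) * N₃.card +
          Nat.card (H₁ ⊓ H₂ ⊓ H₃ : AddSubgroup G)) := Nat.mul_le_mul_left _ hcount
      _ = (κ * Nat.card (H₂ ⊓ H₃ : AddSubgroup G)) * N₁.card +
          (κ * Nat.card (H₁ ⊓ H₃ : AddSubgroup G)) * N₂.card +
          (κ * Nat.card (H₁ ⊓ H₂ : AddSubgroup G)) * N₃.card +
          κ * Nat.card (H₁ ⊓ H₂ ⊓ H₃ : AddSubgroup G) := by ring
      _ ≤ t * n₁ + t * n₂ + t * n₃ + t := by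
          apply Nat.add_le_add
          · apply Nat.add_le_add
            · apply Nat.add_le_add
              · exact Nat.mul_le_mul hthree.2.2 hc₁
              · exact Nat.mul_le_mul hthree.2.1 hc₂
            · exact Nat.mul_le_mul hthree.1 hc₃
          · exact (Nat.mul_le_mul_left _ hlast).trans hthree.1
  have e2 : (n₁ + n₂ + n₃ + 4) * t ≤ κ * t := Nat.mul_le_mul_right _ hκ
  have e3 : (n₁ + n₂ + n₃ + 4) * t = t * n₁ + t * n₂ + t * n₃ + 4 * t := by ring
  omega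

omit [Fintype G] [DecidableEq G] in
lemma card_nsmul_mem (H : AddSubgroup G) {h : G} (hh : h ∈ H) : Nat.card H • h = 0 := by
  have h3 : Nat.card H • (⟨h, hh⟩ : H) = 0 := card_nsmul_eq_zero'
  have h4 := congrArg (fun z : H => (z : G)) h3
  rwa [AddSubgroup.coe_nsmul, AddSubgroup.coe_zero] at h4

/-- The whole elimination. -/
theorem stmt_ElimE (hKn : Stmt_Kneser.{u}) : Stmt_ElimE.{u} := by
  intro G _ _ _ hsub A B σ hcore L _ hL hL2 hsmall K m m' g hH
  rintro ⟨⟨y, hyK, hmy, hgy, hgyp⟩, ⟨x, hxK, hmx, hgx, hgxp⟩, ⟨w, hwK, hmw, hmw', hgw⟩⟩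
  classical
  have hadm := hcore.ce.adm
  have hF := hcore.ce.def4
  set p := Nat.card L with hp
  set k := Nat.card K with hk
  set C := rs A B with hC
  set N : AddSubgroup G := K.comap (QuotientAddGroup.mk' L) with hN
  have memN : ∀ z : G, z ∈ N ↔ (QuotientAddGroup.mk z : G ⧸ L) ∈ K := fun z => Iff.rfl
  have hLN : L ≤ N := by
    intro z hz
    rw [memN, (QuotientAddGroup.eq_zero_iff z).2 hz]
    exact K.zero_mem
  have hcardN : Nat.card N = k * p := by
    rw [card_eq_card_mul_relIndex hLN, mul_comm]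
    congr 1
    have h1 := AddSubgroup.relIndex_ker (K := N) (QuotientAddGroup.mk' L)
    rw [QuotientAddGroup.ker_mk'] at h1
    rw [h1, hN, AddSubgroup.map_comap_eq_self_of_surjective (QuotientAddGroup.mk'_surjective L)]
  -- zero is not a restricted sum
  have h0C : (0 : G) ∉ C := by
    intro h
    rw [hC, mem_rs] at h
    obtain ⟨a, ha, b, hb, hne, hab⟩ := h
    have h1 : -a = b := neg_eq_of_add_eq_zero_right hab
    have h2 := hadm.uniq a ha (h1 ▸ hb)
    apply hne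
    rw [← h1, h2, neg_zero]
  have hγ0 : (part L C 0).card + 1 ≤ p := by
    have h1 := card_part_le L (insert 0 C) 0
    have h2 : part L (insert 0 C) 0 = insert 0 (part L C 0) := by
      ext z
      rw [mem_part, mem_insert, mem_insert, mem_part]
      constructor
      · rintro ⟨h | h, h'⟩
        · exact Or.inl h
        · exact Or.inr ⟨h, h'⟩
      · rintro (h | h)
        · subst h; exact ⟨Or.inl rfl, rfl⟩
        · exact ⟨Or.inr h.1, h.2⟩
    rw [h2, card_insert_of_notMem (fun h => h0C (mem_part.1 h).1)] at h1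
    exact h1
  have hg0 : g 0 + 1 ≤ p := by
    have : g 0 ≤ (part L C 0).card := hH.g_le 0
    omega
  -- deviations
  set fU : G ⧸ L → ℕ := fun i => m i - (part L A i).card with hfU
  set fV : G ⧸ L → ℕ := fun i => m' i - (part L B i).card with hfV
  set fE : G ⧸ L → ℕ := fun i => (part L C i).card - g i with hfE
  have hleA : ∀ i, (part L A i).card ≤ m i := hH.le_m
  have hleB : ∀ i, (part L B i).card ≤ m' i := hH.le_m'
  have hleC : ∀ i, g i ≤ (part L C i).card := hH.g_le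
  have htotal : ∑ i, fU i + ∑ i, fV i + ∑ i, fE i + 4 ≤ k := by
    have e1 : ∑ i, m i = ∑ i, fU i + ∑ i, (part L A i).card := by
      rw [← sum_add_distrib]
      apply sum_congr rfl
      intro i _
      have := hleA i
      simp only [hfU]
      omega
    have e2 : ∑ i, m' i = ∑ i, fV i + ∑ i, (part L B i).card := by
      rw [← sum_add_distrib]
      apply sum_congr rfl
      intro i _
      have := hleB i
      simp only [hfV]
      omega
    have e3 : ∑ i, (part L C i).card = ∑ i, fE i + ∑ i, g i := by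
      rw [← sum_add_distrib]
      apply sum_congr rfl
      intro i _
      have := hleC i
      simp only [hfE]
      omega
    have e4 := hH.total
    rw [← card_eq_sum_part] at e1 e2 e3
    omega
  -- blocks
  have bA : ∀ q, (blk K A q).card + Dv K fU q = k * m q :=
    fun q => card_blk_add K A q m hH.per_m hleA
  have bB : ∀ q, (blk K B q).card + Dv K fV q = k * m' q :=
    fun q => card_blk_add K B q m' hH.per_m' hleB
  have bC : ∀ q, (blk K C q).card = k * g q + Dv K fE q :=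
    fun q => card_blk_eq K C q g hH.per_g hleC
  have hsum : ∀ q q' : G ⧸ L, q - q' ∉ K → blk K A q + blk K B q' ⊆ blk K C (q + q') := by
    intro q q' hq z hz
    rw [mem_add] at hz
    obtain ⟨a, ha, b, hb, rfl⟩ := hz
    rw [mem_blk] at ha hb ⊢
    refine ⟨?_, ?_⟩
    · rw [hC, mem_rs]
      refine ⟨a, ha.1, b, hb.1, ?_, rfl⟩
      rintro rfl
      apply hq
      have := K.sub_mem hb.2 ha.2
      rwa [sub_sub_sub_cancel_left] at this
    · rw [QuotientAddGroup.mk_add]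
      have := K.add_mem ha.2 hb.2
      have e : (QuotientAddGroup.mk a : G ⧸ L) - q + (QuotientAddGroup.mk b - q') =
        QuotientAddGroup.mk a + QuotientAddGroup.mk b - (q + q') := by abel
      rwa [e] at this
  have hZN : ∀ q : G ⧸ L, ∀ z ∈ blk K C q, ∀ z' ∈ blk K C q, z - z' ∈ N := by
    intro q z hz z' hz'
    rw [memN]
    have := K.sub_mem (mem_blk.1 hz).2 (mem_blk.1 hz').2
    rwa [sub_sub_sub_cancel_right, ← QuotientAddGroup.mk_sub] at this
  have h0A : (0 : G) ∈ blk K A 0 := mem_blk.2 ⟨hadm.zA, by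
    rw [sub_zero]; exact K.zero_mem⟩
  have h0B : (0 : G) ∈ blk K B 0 := mem_blk.2 ⟨hadm.zB, by
    rw [sub_zero]; exact K.zero_mem⟩
  have hkpos : 0 < k := Nat.card_pos
  have neA : ∀ q, 1 ≤ m q → (blk K A q).Nonempty := by
    intro q hq
    rw [← card_pos]
    have h1 := bA q
    have h2 := Dv_le K fU q
    have h3 : k * 1 ≤ k * m q := Nat.mul_le_mul_left _ hq
    omega
  have neB : ∀ q, 1 ≤ m' q → (blk K B q).Nonempty := by
    intro q hq
    rw [← card_pos]
    have h1 := bB q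
    have h2 := Dv_le K fV q
    have h3 : k * 1 ≤ k * m' q := Nat.mul_le_mul_left _ hq
    omega
  have hyK' : (0 : G ⧸ L) - y ∉ K := fun h => hyK (by simpa using K.neg_mem h)
  have hxK' : x - (0 : G ⧸ L) ∉ K := fun h => hxK (by simpa using h)
  have hwK0 : w - 0 ∉ K := fun h => hwK (by simpa using h)
  have hwK1 : (-w) - 0 ∉ K := fun h => hwK (by simpa using h)
  have hyK0 : y - 0 ∉ K := fun h => hyK (by simpa using h)
  -- the pair of blocks of the third triple
  have kmul' : ∀ a b c : ℕ, c + 1 = a + b → k * c + k = k * (a + b) := by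
    intro a b c h
    rw [← h]; ring
  have hmk : ∀ (S : Finset G) (q : G ⧸ L), ∀ z ∈ blk K S q, ∀ z' ∈ blk K S q, z - z' ∈ N := by
    intro S q z hz z' hz'
    rw [memN]
    have := K.sub_mem (mem_blk.1 hz).2 (mem_blk.1 hz').2
    rwa [sub_sub_sub_cancel_right, ← QuotientAddGroup.mk_sub] at this
  have hNtop : N ≠ ⊤ := by
    intro h
    obtain ⟨z, rfl⟩ := QuotientAddGroup.mk_surjective w
    apply hwK
    rw [← memN, h]
    exact AddSubgroup.mem_top z
  have hsumw : blk K A w + blk K B (-w) ⊆ blk K C (w + -w) := by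
    intro z hz
    rw [mem_add] at hz
    obtain ⟨a, ha, b, hb, rfl⟩ := hz
    have hcl : (QuotientAddGroup.mk (a + b) : G ⧸ L) - (w + -w) ∈ K := by
      rw [QuotientAddGroup.mk_add]
      have := K.add_mem (mem_blk.1 ha).2 (mem_blk.1 hb).2
      have e : (QuotientAddGroup.mk a : G ⧸ L) - w + (QuotientAddGroup.mk b - -w) =
        QuotientAddGroup.mk a + QuotientAddGroup.mk b - (w + -w) := by abel
      rwa [e] at this
    by_cases hab : a = b
    swap
    · exact mem_blk.2 ⟨mem_rs.2 ⟨a, (mem_blk.1 ha).1, b, (mem_blk.1 hb).1, hab, rfl⟩, hcl⟩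
    subst hab
    refine mem_blk.2 ⟨?_, hcl⟩
    by_contra hlost
    have hrsub : rs (blk K A w) (blk K B (-w)) ⊆ blk K C (w + -w) := by
      intro z hz
      rw [mem_rs] at hz
      obtain ⟨a', ha', b', hb', hne, rfl⟩ := hz
      refine mem_blk.2 ⟨mem_rs.2 ⟨a', (mem_blk.1 ha').1, b', (mem_blk.1 hb').1, hne, rfl⟩, ?_⟩
      rw [QuotientAddGroup.mk_add]
      have := K.add_mem (mem_blk.1 ha').2 (mem_blk.1 hb').2
      have e : (QuotientAddGroup.mk a' : G ⧸ L) - w + (QuotientAddGroup.mk b' - -w) =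
        QuotientAddGroup.mk a' + QuotientAddGroup.mk b' - (w + -w) := by abel
      rwa [e] at this
    have h1 := LL.coset N (hsub N hNtop) (blk K A w) (blk K B (-w)) a
      (fun x hx => hmk A w x hx a ha) (fun y hy => hmk B (-w) y hy a hb) ha hb
      (fun h => hlost (mem_blk.1 (hrsub h)).1)
    have h2 : ((blk K A w).filter (fun x => a + a - x ∈ blk K B (-w))).card ≤ 1 := by
      rw [card_le_one]
      intro x hx y hy
      rw [mem_filter] at hx hy
      rw [hcore.lost a (mem_blk.1 ha).1 (mem_blk.1 hb).1 hlost x (mem_blk.1 hx.1).1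
        (mem_blk.1 hx.2).1, hcore.lost a (mem_blk.1 ha).1 (mem_blk.1 hb).1 hlost y
        (mem_blk.1 hy.1).1 (mem_blk.1 hy.2).1]
    have h3 := card_le_card hrsub
    have h4 := bA w
    have h5 := bB (-w)
    have h6 := bC (w + -w)
    have h7 := kmul' (m w) (m' (-w)) (g (w + -w)) (by rw [add_neg_cancel]; exact hgw)
    have h8 := Dv_le K fU w
    have h9 := Dv_le K fV (-w)
    have h10 := Dv_le K fE (w + -w)
    have h11 : k * (m w + m' (-w)) = k * m w + k * m' (-w) := by ring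
    omega
  -- the three triples
  have kmul : ∀ a b c : ℕ, c + 1 = a + b → k * c + k = k * (a + b) := by
    intro a b c h
    rw [← h]; ring
  obtain ⟨H₁, hx₁, hy₁, ρ₁, hper₁, hHN₁, hd₁, hhx₁, hhy₁, hρ₁, hxU₁, hyU₁, hρE₁, hs₁, hk₁⟩ :=
    triple hKn (blk K A 0) (blk K B y) (blk K C (0 + y)) ⟨0, h0A⟩ (neB y hmy)
      (hsum 0 y hyK') L N hL hLN (hZN _) k hcardN (m 0) (m' y)
      (part_blk_le K A 0 m hH.per_m hleA) (part_blk_le K B y m' hH.per_m' hleB)
      (by omega) (Dv K fU 0) (Dv K fV y) (Dv K fE (0 + y)) (Dv K fV 0 + Dv K fE 0)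
      (bA 0) (bB y)
      (by
        have h1 := bC (0 + y)
        have h2 := kmul (m 0) (m' y) (g (0 + y)) (by rw [zero_add]; exact hgy)
        omega)
      (by
        have h1 := Dv_le K fU 0
        have h2 := Dv_add_le K fV (q := y) (q' := 0) hyK0
        have h3 := Dv_add_le K fE (q := 0 + y) (q' := 0) (by rw [zero_add]; exact hyK0)
        omega)
  obtain ⟨H₂, hx₂, hy₂, ρ₂, hper₂, hHN₂, hd₂, hhx₂, hhy₂, hρ₂, hxU₂, hyU₂, hρE₂, hs₂, hk₂⟩ :=
    triple hKn (blk K A x) (blk K B 0) (blk K C (x + 0)) (neA x hmx) ⟨0, h0B⟩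
      (hsum x 0 hxK') L N hL hLN (hZN _) k hcardN (m x) (m' 0)
      (part_blk_le K A x m hH.per_m hleA) (part_blk_le K B 0 m' hH.per_m' hleB)
      (by omega) (Dv K fU x) (Dv K fV 0) (Dv K fE (x + 0)) (Dv K fU 0 + Dv K fE 0)
      (bA x) (bB 0)
      (by
        have h1 := bC (x + 0)
        have h2 := kmul (m x) (m' 0) (g (x + 0)) (by rw [add_zero]; exact hgx)
        omega)
      (by
        have h1 := Dv_le K fV 0
        have h2 := Dv_add_le K fU (q := x) (q' := 0) hxK'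
        have h3 := Dv_add_le K fE (q := x + 0) (q' := 0) (by rw [add_zero]; exact hxK')
        omega)
  obtain ⟨H₃, hx₃, hy₃, ρ₃, hper₃, hHN₃, hd₃, hhx₃, hhy₃, hρ₃, hxU₃, hyU₃, hρE₃, hs₃, hk₃⟩ :=
    triple hKn (blk K A w) (blk K B (-w)) (blk K C (w + -w)) (neA w hmw) (neB (-w) hmw')
      hsumw L N hL hLN (hZN _) k hcardN (m w) (m' (-w))
      (part_blk_le K A w m hH.per_m hleA) (part_blk_le K B (-w) m' hH.per_m' hleB)
      (by omega) (Dv K fU w) (Dv K fV (-w)) (Dv K fE (w + -w)) (Dv K fU 0 + Dv K fV 0)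
      (bA w) (bB (-w))
      (by
        have h1 := bC (w + -w)
        have h2 := kmul (m w) (m' (-w)) (g (w + -w)) (by rw [add_neg_cancel]; exact hgw)
        omega)
      (by
        have h1 := Dv_le K fE (w + -w)
        have h2 := Dv_add_le K fU (q := w) (q' := 0) hwK0
        have h3 := Dv_add_le K fV (q := -w) (q' := 0) hwK1
        omega)
  rw [zero_add] at hρE₁ hk₁
  rw [add_zero] at hρE₂ hk₂
  rw [add_neg_cancel] at hρE₃ hk₃
  -- odd orders
  have o1 : ¬ 2 ∣ Nat.card H₁ := by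
    intro h2
    have h3 : p ≤ 2 := prime_ge A B p hsmall H₁ _ _ (filter_subset _ _) (filter_subset _ _)
      ⟨0, h0A⟩ (neB y hmy) hx₁ hy₁ hhx₁ hhy₁ (by omega) 2 Nat.prime_two h2
    have := hL.two_le
    omega
  have o2 : ¬ 2 ∣ Nat.card H₂ := by
    intro h2
    have h3 : p ≤ 2 := prime_ge A B p hsmall H₂ _ _ (filter_subset _ _) (filter_subset _ _)
      (neA x hmx) ⟨0, h0B⟩ hx₂ hy₂ hhx₂ hhy₂ (by omega) 2 Nat.prime_two h2
    have := hL.two_le
    omega
  have o3 : ¬ 2 ∣ Nat.card H₃ := by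
    intro h2
    have h3 : p ≤ 2 := prime_ge A B p hsmall H₃ _ _ (filter_subset _ _) (filter_subset _ _)
      (neA w hmw) (neB (-w) hmw') hx₃ hy₃ hhx₃ hhy₃ (by omega) 2 Nat.prime_two h2
    have := hL.two_le
    omega
  -- the sum of the orders is large
  have hbig : k + 8 ≤ Nat.card H₁ + Nat.card H₂ + Nat.card H₃ := by
    have u1 := Dv_add_le K fU (q := x) (q' := 0) hxK'
    have u2 := Dv_le K fU w
    have v1 := Dv_add_le K fV (q := y) (q' := 0) hyK0
    have v2 := Dv_le K fV (-w)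
    have e1 : y - 0 ∉ K := hyK0
    have w1 := Dv_add_le K fE (q := y) (q' := 0) e1
    have w2 := Dv_le K fE x
    omega
  -- a subgroup `N'` of odd index in the right range
  obtain ⟨N', k', hHN₁', hHN₂', hHN₃', hcardN', hsome⟩ : ∃ (N' : AddSubgroup G) (k' : ℕ),
      H₁ ≤ N' ∧ H₂ ≤ N' ∧ H₃ ≤ N' ∧ Nat.card N' = k' * p ∧
      (Nat.card H₁ = k' ∨ Nat.card H₂ = k' ∨ Nat.card H₃ = k') := by
    by_cases hσN : σ ∈ N
    · -- `N` has even order
      set dbl : G →+ G := AddMonoidHom.id G + AddMonoidHom.id G with hdbl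
      have hdbl' : ∀ z, dbl z = z + z := fun z => rfl
      have hker : dbl.ker ⊓ N = AddSubgroup.zmultiples σ := by
        ext z
        rw [AddSubgroup.mem_inf, AddMonoidHom.mem_ker, hdbl', mem_zm hcore.two]
        constructor
        · exact fun h => hcore.uniq z h.1
        · rintro (rfl | rfl)
          · exact ⟨add_zero _, N.zero_mem⟩
          · exact ⟨hcore.two, hσN⟩
      have hcard2 : Nat.card N = 2 * Nat.card (N.map dbl) := by
        have h1 := card_eq_card_mul_relIndex (show dbl.ker ⊓ N ≤ N from inf_le_right)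
        rw [AddSubgroup.inf_relIndex_right, AddSubgroup.relIndex_ker] at h1
        rw [h1, hker, card_zm hcore.ne hcore.two]
      have hodd_le : ∀ H : AddSubgroup G, H ≤ N → ¬ 2 ∣ Nat.card H → H ≤ N.map dbl := by
        intro H hHN h2 h hh
        obtain ⟨j, hj⟩ : ∃ j, Nat.card H = 2 * j + 1 := ⟨Nat.card H / 2, by omega⟩
        refine ⟨(j + 1) • h, N.nsmul_mem (hHN hh) _, ?_⟩
        rw [hdbl', ← two_nsmul, ← mul_nsmul, mul_comm, show 2 * (j + 1) = Nat.card H + 1 by omega,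
          add_nsmul, one_nsmul]
        have h4 : Nat.card H • h = 0 := card_nsmul_mem H hh
        rw [h4, zero_add]
      have hk2 : 2 ∣ k := by
        have h1 : 2 ∣ k * p := by rw [← hcardN, hcard2]; exact Dvd.intro _ rfl
        rcases (Nat.Prime.dvd_mul Nat.prime_two).1 h1 with h | h
        · exact h
        · exfalso
          have := (Nat.prime_dvd_prime_iff_eq Nat.prime_two hL).1 h
          exact hL2 this.symm
      obtain ⟨k', hk'⟩ := hk2
      have hdv : ∀ n, n ∣ k → ¬ 2 ∣ n → n ∣ k' := by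
        intro n hn h2
        rw [hk'] at hn
        exact Nat.Coprime.dvd_of_dvd_mul_left
          ((Nat.coprime_comm.1 ((Nat.Prime.coprime_iff_not_dvd Nat.prime_two).2 h2))) hn
      refine ⟨N.map dbl, k', hodd_le H₁ hHN₁ o1, hodd_le H₂ hHN₂ o2, hodd_le H₃ hHN₃ o3, ?_, ?_⟩
      · have : 2 * Nat.card (N.map dbl) = 2 * (k' * p) := by
          rw [← hcard2, hcardN, hk']; ring
        omega
      · by_contra hcon
        push Not at hcon
        obtain ⟨c1, c2, c3⟩ := hcon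
        have hk'pos : 0 < k' := by omega
        have half : ∀ n, n ∣ k' → n ≠ k' → 2 * n ≤ k' := by
          intro n hn hne
          obtain ⟨c, hc⟩ := hn
          have hc0 : c ≠ 0 := by rintro rfl; omega
          have hc1 : c ≠ 1 := by rintro rfl; exact hne (by omega)
          have : 2 ≤ c := by omega
          calc 2 * n = n * 2 := by ring
            _ ≤ n * c := Nat.mul_le_mul_left _ this
            _ = k' := hc.symm
        have t1 := half _ (hdv _ hd₁ o1) c1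
        have t2 := half _ (hdv _ hd₂ o2) c2
        have t3 := half _ (hdv _ hd₃ o3) c3
        omega
    · -- `N` has odd order
      have hNodd : ¬ 2 ∣ Nat.card N := by
        intro h2
        haveI : Fact (Nat.Prime 2) := ⟨Nat.prime_two⟩
        obtain ⟨z, hz⟩ := exists_prime_addOrderOf_dvd_card' (G := N) 2 h2
        have h3 : z + z = 0 := by
          rw [← two_nsmul, ← hz, addOrderOf_nsmul_eq_zero]
        have h4 : (z : G) + z = 0 := by
          rw [← AddSubgroup.coe_add, h3]; rfl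
        rcases hcore.uniq _ h4 with h5 | h5
        · have h6 : z = 0 := Subtype.ext h5
          rw [h6, addOrderOf_zero] at hz
          omega
        · exact hσN (h5 ▸ z.2)
      have hkodd : Odd k := by
        rw [← Nat.not_even_iff_odd, even_iff_two_dvd]
        intro h
        exact hNodd (by rw [hcardN]; exact Dvd.dvd.mul_right h p)
      refine ⟨N, k, hHN₁, hHN₂, hHN₃, hcardN, ?_⟩
      by_contra hcon
      push Not at hcon
      obtain ⟨c1, c2, c3⟩ := hcon
      have t1 := three_le_of_dvd hd₁ c1 hkodd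
      have t2 := three_le_of_dvd hd₂ c2 hkodd
      have t3 := three_le_of_dvd hd₃ c3 hkodd
      omega
  have hhalf : ∀ z ∈ H₁, z + z ∈ H₃ → z ∈ H₃ := by
    intro z hz hzz
    obtain ⟨j, hj⟩ : ∃ j, Nat.card H₁ = 2 * j + 1 := ⟨Nat.card H₁ / 2, by omega⟩
    have h4 : Nat.card H₁ • z = 0 := card_nsmul_mem H₁ hz
    have h5 : z = (j + 1) • (z + z) := by
      rw [← two_nsmul, ← mul_nsmul, show 2 * (j + 1) = Nat.card H₁ + 1 by omega,
        add_nsmul, one_nsmul, h4, zero_add]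
    rw [h5]
    exact H₃.nsmul_mem hzz _
  have hρ3lt : ρ₃ = (blk K C (w + -w) \ (blk K A w + blk K B (-w))).card := by
    rw [card_sdiff_of_subset hsumw]
    omega
  have hCsum : ∀ a ∈ A, ∀ b ∈ B, a ≠ b → a + b ∈ C := by
    intro a ha b hb hne
    rw [hC]
    exact mem_rs.2 ⟨a, ha, b, hb, hne, rfl⟩
  refine final_count' A B C hCsum hadm.zA hadm.zB hadm.uniq H₁ H₂ H₃ N' hhalf hx₁ hy₂ ρ₃
    (hull H₁ (blk K A 0) \ blk K A 0) (hull H₂ (blk K B 0) \ blk K B 0)
    (blk K C (w + -w) \ (blk K A w + blk K B (-w))) ?_ ?_ ?_ ?_ ?_ hρ3lt.ge ?_ ?_ ?_ hHN₁' hHN₂' hHN₃'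
    k' p hL hcardN' hsome ?_ ?_ ?_
  · intro h hh hA
    rw [mem_sdiff]
    refine ⟨mem_hull.2 ⟨0, h0A, by rwa [sub_zero]⟩, fun h' => hA (mem_blk.1 h').1⟩
  · intro h hh hB
    rw [mem_sdiff]
    refine ⟨mem_hull.2 ⟨0, h0B, by rwa [sub_zero]⟩, fun h' => hB (mem_blk.1 h').1⟩
  · intro h hh hC'
    rw [mem_sdiff, add_neg_cancel]
    refine ⟨mem_blk.2 ⟨hC', by rw [sub_zero]; exact hHN₃ hh⟩, fun h' => ?_⟩
    have h1 := hper₃ (-h) (H₃.neg_mem hh) h h'
    rw [neg_add_cancel] at h1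
    exact h0C (mem_blk.1 (hsumw h1)).1
  · rw [card_sdiff_of_subset (subset_hull _ _)]
    omega
  · rw [card_sdiff_of_subset (subset_hull _ _)]
    omega
  · omega
  · omega
  · omega
  · exact fun r hr hrd => prime_ge A B p hsmall H₁ _ _ (filter_subset _ _) (filter_subset _ _)
      ⟨0, h0A⟩ (neB y hmy) hx₁ hy₁ hhx₁ hhy₁ (by omega) r hr hrd
  · exact fun r hr hrd => prime_ge A B p hsmall H₂ _ _ (filter_subset _ _) (filter_subset _ _)
      (neA x hmx) ⟨0, h0B⟩ hx₂ hy₂ hhx₂ hhy₂ (by omega) r hr hrd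
  · exact fun r hr hrd => prime_ge A B p hsmall H₃ _ _ (filter_subset _ _) (filter_subset _ _)
      (neA w hmw) (neB (-w) hmw') hx₃ hy₃ hhx₃ hhy₃ (by omega) r hr hrd


end final

end Pool.Agent.Work.MP_59976d_co
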