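import Pool.Agent.Work.MP_59976d_co_even.P1E
import Pool.Agent.Work.MP_59976d_co_odd.FIN

/-!
Assembly of the even case: (L) for all finite abelian groups.
-/

namespace Pool.Agent.Work.MP_59976d_co

open Finset
open scoped Pointwise

universe u

section assembly

variable {G : Type u} [AddCommGroup G]

/-- Recentring a counterexample at a uniquely represented lost sum. -/
lemma CE.tr [DecidableEq G] {A B : Finset G} (h : CE A B) {d : G} (hA : d ∈ A) (hB : d ∈ B)
    (hu : ∀ a ∈ A, d + d - a ∈ B → a = d) :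
    CE (Pool.Agent.Work.MP_59976d_co.tr d A) (Pool.Agent.Work.MP_59976d_co.tr d B) := by
  refine ⟨adm_tr hA hB hu, ?_, ?_⟩
  · intro x hx
    rw [mem_tr] at hx ⊢
    exact h.sub hx
  · rw [rs_tr, card_tr, card_tr, card_tr]
    exact h.def4

/-- (*) Every involution lies in the restricted sumset and outside `A ∪ B`. -/
lemma star_inv [Finite G] [DecidableEq G] (hS1 : Stmt_S1.{u}) (hS2a : Stmt_S2a.{u}) (hS2b : Stmt_S2b.{u})
    (hquo : HQuo G) {A B : Finset G} (h : CE A B) (w : G) (h2 : w + w = 0) (h0 : w ≠ 0) :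
    w ∉ A ∧ w ∉ B ∧ w ∈ rs A B := by
  have hF := h.def4
  have hne : ∀ v : G, v ≠ 0 → AddSubgroup.zmultiples v ≠ ⊥ := by
    intro v hv hbot
    rw [AddSubgroup.zmultiples_eq_bot] at hbot
    exact hv hbot
  have key : ∀ v : G, v + v = 0 → v ≠ 0 → ¬ (v ∈ A ∨ v ∈ B) := by
    intro v hv2 hv0 hv
    have := hS1 G A B v hv0 hv2 (hquo _ (hne v hv0)).scherk h.adm hv
    omega
  have k1 := key w h2 h0
  push Not at k1
  refine ⟨k1.1, k1.2, ?_⟩
  by_contra hw
  have h3 : w ∈ A + B := by
    by_contra hw'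
    have := hS2a G A B w h0 h2 (hquo _ (hne w h0)).scherk h.adm hw'
    omega
  rw [mem_add] at h3
  obtain ⟨a, ha, b, hb, hab⟩ := h3
  have hab' : a = b := by
    by_contra hne'
    exact hw (mem_rs.2 ⟨a, ha, b, hb, hne', hab⟩)
  subst hab'
  have ha0 : a ≠ 0 := by
    rintro rfl
    rw [add_zero] at hab
    exact h0 hab.symm
  have := hS2b G A B a (by rw [hab]; exact h0) (by rw [hab]; exact h2)
    (hquo _ (hne a ha0)).scherk h.adm h.sub (by
      intro v hv hv2
      by_contra hv0
      exact key v hv2 hv0 (Or.inl hv)) hb (by rw [hab]; exact hw)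
  omega

/-- Every lost sum is uniquely represented. -/
lemma lost_unique [Finite G] [DecidableEq G] (hS1 : Stmt_S1.{u}) (hS2a : Stmt_S2a.{u})
    (hS2b : Stmt_S2b.{u}) (hS3 : Stmt_S3.{u}) (hquo : HQuo G) {A B : Finset G} (h : CE A B) :
    ∀ d ∈ A, d ∈ B → d + d ∉ rs A B → ∀ a ∈ A, d + d - a ∈ B → a = d := by
  intro d hA hB hlost a ha hab
  have h1 := diag_of_lost hlost ha hab
  by_contra hne
  have hst := star_inv hS1 hS2a hS2b hquo h
  have := hS3 G (fun H hH => (hquo H hH).scherk) A B h.adm (by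
    intro w hw hw2
    by_contra hw0
    have := hst w hw2 hw0
    tauto) (fun w hw2 hw0 => (hst w hw2 hw0).2.2) a d ha h1.1 hA hB hne h1.2 (by
      rw [h1.2]; exact hlost)
  have := h.def4
  omega

/-- For `a, a + σ ∈ A` and `b ∈ B` the sum `a + b` is not lost. -/
lemma not_lost_of_full [Finite G] [DecidableEq G] (hS1 : Stmt_S1.{u}) (hS2a : Stmt_S2a.{u})
    (hS2b : Stmt_S2b.{u}) (hS3 : Stmt_S3.{u}) (hquo : HQuo G) {A B : Finset G} (h : CE A B)
    {σ : G} (h0 : σ ≠ 0) (h2 : σ + σ = 0) {a b : G} (ha : a ∈ A) (hb : b ∈ B)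
    (haσ : a + σ ∈ A ∨ b + σ ∈ B) : a + b ∈ rs A B := by
  by_cases hab : a = b
  swap
  · exact mem_rs.2 ⟨a, ha, b, hb, hab, rfl⟩
  subst hab
  by_contra hlost
  have hu := lost_unique hS1 hS2a hS2b hS3 hquo h a ha hb hlost
  have hst := star_inv hS1 hS2a hS2b hquo (h.tr ha hb hu) σ h2 h0
  rw [mem_tr, mem_tr, add_comm σ a] at hst
  tauto

/-- The hypothesis of S4. -/
lemma fibre_two [Finite G] [DecidableEq G] (hS1 : Stmt_S1.{u}) (hS2a : Stmt_S2a.{u})
    (hS2b : Stmt_S2b.{u}) (hS3 : Stmt_S3.{u}) (hquo : HQuo G) {A B : Finset G} (h : CE A B)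
    {σ : G} (h0 : σ ≠ 0) (h2 : σ + σ = 0) (i j : G ⧸ AddSubgroup.zmultiples σ)
    (hi : 1 ≤ (part _ A i).card) (hj : 1 ≤ (part _ B j).card) :
    min 2 ((part _ A i).card + (part _ B j).card - 1) ≤ (part _ (rs A B) (i + j)).card := by
  have hle : ∀ (S : Finset G) (i : G ⧸ AddSubgroup.zmultiples σ), (part _ S i).card ≤ 2 := by
    intro S i
    have := card_part_le (AddSubgroup.zmultiples σ) S i
    rwa [card_zm h0 h2] at this
  obtain ⟨x, hx⟩ := card_pos.1 (show 0 < _ from hi)
  obtain ⟨y, hy⟩ := card_pos.1 (show 0 < _ from hj)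
  rw [mem_part] at hx hy
  obtain ⟨hxA, rfl⟩ := hx
  obtain ⟨hyB, rfl⟩ := hy
  have hnl := fun {a b : G} => not_lost_of_full hS1 hS2a hS2b hS3 hquo h h0 h2 (a := a) (b := b)
  have l1 := hle A (QuotientAddGroup.mk x)
  have l2 := hle B (QuotientAddGroup.mk y)
  rw [← QuotientAddGroup.mk_add]
  have hxx : x + σ + σ = x := by rw [add_assoc, h2, add_zero]
  have hyy : y + σ + σ = y := by rw [add_assoc, h2, add_zero]
  by_cases hfA : (part (AddSubgroup.zmultiples σ) A (QuotientAddGroup.mk x)).card = 2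
  · rw [card_part_eq_two_iff h0 h2] at hfA
    have h3 : (part (AddSubgroup.zmultiples σ) (rs A B) (QuotientAddGroup.mk (x + y))).card = 2 := by
      rw [card_part_eq_two_iff h0 h2]
      refine ⟨hnl hxA hyB (Or.inl hfA.2), ?_⟩
      have := hnl hfA.2 hyB (Or.inl (by rw [hxx]; exact hxA))
      rwa [add_right_comm] at this
    omega
  · by_cases hfB : (part (AddSubgroup.zmultiples σ) B (QuotientAddGroup.mk y)).card = 2
    · rw [card_part_eq_two_iff h0 h2] at hfB
      have h3 : (part (AddSubgroup.zmultiples σ) (rs A B) (QuotientAddGroup.mk (x + y))).card =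
          2 := by
        rw [card_part_eq_two_iff h0 h2]
        refine ⟨hnl hxA hyB (Or.inr hfB.2), ?_⟩
        have := hnl hxA hfB.2 (Or.inr (by rw [hyy]; exact hyB))
        rwa [← add_assoc] at this
      omega
    · have h3 : 1 ≤ (part (AddSubgroup.zmultiples σ) (rs A B) (QuotientAddGroup.mk (x + y))).card := by
        rw [one_le_card_part_iff h2]
        by_cases hxy : x = y
        · subst hxy
          by_cases hl : x + x ∈ rs A B
          · exact Or.inl hl
          · right
            have hu := lost_unique hS1 hS2a hS2b hS3 hquo h x hxA hyB hl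
            have hst := star_inv hS1 hS2a hS2b hquo (h.tr hxA hyB hu) σ h2 h0
            have := hst.2.2
            rw [rs_tr, mem_tr, add_comm] at this
            exact this
        · exact Or.inl (mem_rs.2 ⟨x, hxA, y, hyB, hxy, rfl⟩)
      omega

/-- A counterexample gives the core configuration. -/
lemma core_of_ce [Finite G] [DecidableEq G] (hS1 : Stmt_S1.{u}) (hS2a : Stmt_S2a.{u})
    (hS2b : Stmt_S2b.{u}) (hS3 : Stmt_S3.{u}) (hS4 : Stmt_S4.{u}) (hS5 : Stmt_S5.{u})
    (hsub : HSub G) (hquo : HQuo G) {A B : Finset G} (h : CE A B)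
    {σ : G} (h0 : σ ≠ 0) (h2 : σ + σ = 0) : Core A B σ := by
  have h4 : ∀ w : G, w ≠ 0 → w + w = 0 → (∀ a ∈ A, a + w ∉ A) ∧ (∀ b ∈ B, b + w ∉ B) := by
    intro w hw0 hw2
    exact hS4 G hsub A B h.adm h.def4 w hw0 hw2
      (fibre_two hS1 hS2a hS2b hS3 hquo h hw0 hw2)
  have h5 : ∀ w : G, w ≠ 0 → w + w = 0 → ∀ d ∈ A, d ∈ B → d + d ∈ rs A B ∨ d + d + w ∈ rs A B := by
    intro w hw0 hw2 d hA hB
    have := fibre_two hS1 hS2a hS2b hS3 hquo h hw0 hw2 (QuotientAddGroup.mk d)
      (QuotientAddGroup.mk d) ((one_le_card_part_iff hw2 A d).2 (Or.inl hA))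
      ((one_le_card_part_iff hw2 B d).2 (Or.inl hB))
    have e1 := (one_le_card_part_iff hw2 A d).2 (Or.inl hA)
    have e2 := (one_le_card_part_iff hw2 B d).2 (Or.inl hB)
    rw [← QuotientAddGroup.mk_add] at this
    exact (one_le_card_part_iff hw2 (rs A B) (d + d)).1 (by omega)
  obtain ⟨k1, k2, k3⟩ := hS5 G hsub hquo A B h.adm h.def4 h4 h5 σ h0 h2
  exact ⟨h, h0, h2, k1, (h4 σ h0 h2).1, (h4 σ h0 h2).2, k2,
    lost_unique hS1 hS2a hS2b hS3 hquo h, k3⟩

/-- The subgroup of index two. -/
lemma exists_index_two [Finite G] {σ : G} (h0 : σ ≠ 0) (h2 : σ + σ = 0)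
    (huniq : ∀ w : G, w + w = 0 → w = 0 ∨ w = σ) :
    ∃ N : AddSubgroup G, Nat.card G = 2 * Nat.card N := by
  set dbl : G →+ G := AddMonoidHom.id G + AddMonoidHom.id G with hdbl
  have hdbl' : ∀ z, dbl z = z + z := fun z => rfl
  have hker : dbl.ker = AddSubgroup.zmultiples σ := by
    ext z
    rw [AddMonoidHom.mem_ker, hdbl', mem_zm h2]
    constructor
    · exact fun h => huniq z h
    · rintro (rfl | rfl)
      · exact add_zero _
      · exact h2
  refine ⟨dbl.range, ?_⟩
  have h1 := dbl.ker.card_mul_index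
  rw [AddSubgroup.index_ker, hker, card_zm h0 h2] at h1
  exact h1.symm

lemma index_two [Finite G] (N : AddSubgroup G) (hN : Nat.card G = 2 * Nat.card N) :
    N.index = 2 := by
  have h1 := N.card_mul_index
  have hpos : 0 < Nat.card N := Nat.card_pos
  rw [hN, mul_comm 2] at h1
  exact Nat.eq_of_mul_eq_mul_left hpos h1

/-- The order of a subset of a coset of `N`. -/
lemma card_le_of_notMem [Finite G] (N : AddSubgroup G) (hN : Nat.card G = 2 * Nat.card N)
    (T : Finset G) (hT : ∀ x ∈ T, x ∉ N) : T.card ≤ Nat.card N := by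
  apply card_le_of_diff
  intro x hx y hy
  rw [sub_eq_add_neg, AddSubgroup.add_mem_iff_of_index_two (index_two N hN)]
  simp [hT x hx, hT y hy]

/-- The case of a subgroup of index two, `|G| = 2p`. -/
lemma core_false_two_p [Finite G] [DecidableEq G] (hI2 : Stmt_I2.{u}) (hS8 : Stmt_S8.{u})
    {A B : Finset G} {σ : G} (h : Core A B σ) (N : AddSubgroup G)
    (hN : Nat.card G = 2 * Nat.card N) (hLL : LL N) (hp : (Nat.card N).Prime)
    (hp2 : Nat.card N ≠ 2) : False := by
  classical
  have hidx := index_two N hN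
  have hadd : ∀ x y : G, x + y ∈ N ↔ (x ∈ N ↔ y ∈ N) := fun x y =>
    AddSubgroup.add_mem_iff_of_index_two hidx
  set p := Nat.card N with hpdef
  have hadm := h.ce.adm
  have hF := h.ce.def4
  -- `σ` is not in `N`
  have hσN : σ ∉ N := by
    intro hσ
    have h1 : AddSubgroup.zmultiples σ ≤ N := by
      rw [AddSubgroup.zmultiples_le]; exact hσ
    have h2 := card_dvd_card h1
    rw [card_zm h.ne h.two] at h2
    have := (Nat.prime_dvd_prime_iff_eq Nat.prime_two hp).1 h2
    omega
  set A₀ := A.filter (fun a => a ∈ N) with hA₀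
  set A₁ := A.filter (fun a => a ∉ N) with hA₁
  set B₀ := B.filter (fun a => a ∈ N) with hB₀
  set B₁ := B.filter (fun a => a ∉ N) with hB₁
  set C₀ := (rs A B).filter (fun a => a ∈ N) with hC₀
  set C₁ := (rs A B).filter (fun a => a ∉ N) with hC₁
  have cA : A₀.card + A₁.card = A.card := card_filter_add_card_filter_not _
  have cB : B₀.card + B₁.card = B.card := card_filter_add_card_filter_not _
  have cC : C₀.card + C₁.card = (rs A B).card := card_filter_add_card_filter_not _
  -- sections
  have hsec : ∀ S : Finset G, (∀ a ∈ S, a + σ ∉ S) →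
      (S.filter (fun a => a ∈ N)).card + (S.filter (fun a => a ∉ N)).card ≤ p := by
    intro S hS
    rw [← card_image_of_injective (S.filter (fun a => a ∉ N)) (add_left_injective σ),
      ← card_union_of_disjoint]
    · apply card_le_of_diff
      intro x hx y hy
      have : ∀ z ∈ S.filter (fun a => a ∈ N) ∪
          (S.filter (fun a => a ∉ N)).image (fun a => a + σ), z ∈ N := by
        intro z hz
        rw [mem_union, mem_filter, mem_image] at hz
        rcases hz with hz | ⟨w, hw, rfl⟩
        · exact hz.2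
        · rw [mem_filter] at hw
          rw [hadd]
          exact ⟨fun h => absurd h hw.2, fun h => absurd h hσN⟩
      exact N.sub_mem (this x hx) (this y hy)
    · rw [Finset.disjoint_left]
      intro x hx hx'
      rw [mem_image] at hx'
      obtain ⟨w, hw, rfl⟩ := hx'
      exact hS w (mem_filter.1 hw).1 (mem_filter.1 hx).1
  have sA : A₀.card + A₁.card ≤ p := hsec A h.A1
  have sB : B₀.card + B₁.card ≤ p := hsec B h.B1
  -- I1
  have I1 : A₀.card + B₀.card ≤ C₀.card + 3 := by
    have h1 := of_injective hLL.scherk N.subtype (AddSubgroup.subtype_injective _) A₀ B₀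
      ⟨mem_filter.2 ⟨hadm.zA, N.zero_mem⟩, mem_filter.2 ⟨hadm.zB, N.zero_mem⟩,
        fun a ha hb => hadm.uniq a (mem_filter.1 ha).1 (mem_filter.1 hb).1⟩
      (fun a ha => ⟨⟨a, (mem_filter.1 ha).2⟩, rfl⟩) (fun a ha => ⟨⟨a, (mem_filter.1 ha).2⟩, rfl⟩)
    have h2 : rs A₀ B₀ ⊆ C₀ := by
      intro z hz
      rw [mem_rs] at hz
      obtain ⟨a, ha, b, hb, hne, rfl⟩ := hz
      rw [mem_filter] at ha hb
      exact mem_filter.2 ⟨mem_rs.2 ⟨a, ha.1, b, hb.1, hne, rfl⟩, N.add_mem ha.2 hb.2⟩
    have := card_le_card h2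
    omega
  have hI : A₁.Nonempty → B₁.Nonempty → A₁.card + B₁.card ≤ C₀.card + 3 :=
    fun h1 h2 => hI2 G A B σ h N hN hLL h1 h2 (Or.inr hp)
  -- a mixed pair with more than `p` elements
  have hmix : ∀ X Y : Finset G, (∀ x ∈ X, x ∈ N) → (∀ y ∈ Y, y ∉ N) → p + 1 ≤ X.card + Y.card →
      (∀ x ∈ X, ∀ y ∈ Y, x + y ∈ rs A B) → p ≤ C₁.card := by
    intro X Y hX hY hXY hsum
    have hall : ∀ g : G, g ∉ N → g ∈ rs A B := by
      intro g hg
      by_contra hgC
      have hdisj : Disjoint (X.image (fun x => g - x)) Y := by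
        rw [Finset.disjoint_left]
        intro z hz hzY
        rw [mem_image] at hz
        obtain ⟨x, hx, rfl⟩ := hz
        apply hgC
        have := hsum x hx _ hzY
        rwa [add_sub_cancel] at this
      have h1 : (X.image (fun x => g - x) ∪ Y).card ≤ p := by
        apply card_le_of_notMem N hN
        intro z hz
        rw [mem_union, mem_image] at hz
        rcases hz with ⟨x, hx, rfl⟩ | hz
        · intro h1
          apply hg
          have := N.add_mem h1 (hX x hx)
          rwa [sub_add_cancel] at this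
        · exact hY z hz
      rw [card_union_of_disjoint hdisj, card_image_of_injective _ sub_right_injective] at h1
      omega
    haveI : Fintype G := Fintype.ofFinite G
    have h2 : (univ.filter (fun g : G => g ∉ N)) ⊆ C₁ := by
      intro g hg
      rw [mem_filter] at hg
      exact mem_filter.2 ⟨hall g hg.2, hg.2⟩
    have h3 := card_le_card h2
    have h4 : (univ.filter (fun g : G => g ∈ N)).card + (univ.filter (fun g : G => g ∉ N)).card =
      (univ : Finset G).card := card_filter_add_card_filter_not _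
    have h5 : (univ.filter (fun g : G => g ∈ N)).card = p := by
      rw [hpdef, ← Fintype.card_subtype, Nat.card_eq_fintype_card]
    have h6 : (univ : Finset G).card = 2 * p := by
      rw [card_univ, ← Nat.card_eq_fintype_card, hN]
    omega
  have hC₁p : p ≤ C₁.card → False := by
    intro hc
    rcases A₁.eq_empty_or_nonempty with h1 | h1
    · have : A₁.card = 0 := by rw [h1, card_empty]
      omega
    · rcases B₁.eq_empty_or_nonempty with h2 | h2
      · have : B₁.card = 0 := by rw [h2, card_empty]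
        omega
      · have := hI h1 h2
        omega
  have m1 : A₀.card + B₁.card ≤ p := by
    by_contra hcon
    apply hC₁p
    apply hmix A₀ B₁ (fun x hx => (mem_filter.1 hx).2) (fun x hx => (mem_filter.1 hx).2) (by omega)
    intro x hx y hy
    rw [mem_filter] at hx hy
    exact mem_rs.2 ⟨x, hx.1, y, hy.1, fun h => hy.2 (h ▸ hx.2), rfl⟩
  have m2 : A₁.card + B₀.card ≤ p := by
    by_contra hcon
    apply hC₁p
    apply hmix B₀ A₁ (fun x hx => (mem_filter.1 hx).2) (fun x hx => (mem_filter.1 hx).2) (by omega)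
    intro x hx y hy
    rw [mem_filter] at hx hy
    exact mem_rs.2 ⟨y, hy.1, x, hx.1, fun h => hy.2 (h ▸ hx.2), add_comm _ _⟩
  -- (**) for the mixed pairs
  have hSS : ∀ X Y : Finset G, X ⊆ A → Y ⊆ B → X.card + Y.card ≤ p → SS X Y := by
    intro X Y hX hY hXY H hH x y
    have hcX := card_le_card (part_subset H X x)
    have hcY := card_le_card (part_subset H Y y)
    have hdvd : Nat.card H ∣ 2 * p := by
      rw [← hN]; exact AddSubgroup.card_addSubgroup_dvd_card H
    by_cases hpH : p ∣ Nat.card H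
    · have := Nat.le_of_dvd Nat.card_pos hpH
      omega
    · have hco : Nat.Coprime (Nat.card H) p := (Nat.coprime_comm.1
        ((Nat.Prime.coprime_iff_not_dvd hp).2 hpH))
      have h2 : Nat.card H ∣ 2 := hco.dvd_of_dvd_mul_right hdvd
      have h3 : Nat.card H ≠ 1 := fun h => hH (AddSubgroup.card_eq_one.1 h)
      have h4 : Nat.card H = 2 := by
        rcases (Nat.dvd_prime Nat.prime_two).1 h2 with h5 | h5
        · exact absurd h5 h3
        · exact h5
      have h5 := card_part_le_one h.uniq H h4 X (fun a ha ha' => h.A1 a (hX ha) (hX ha')) x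
      have h6 := card_part_le_one h.uniq H h4 Y (fun a ha ha' => h.B1 a (hY ha) (hY ha')) y
      omega
  exact hS8 G A B σ h N hN hLL (hSS A₀ B₁ (filter_subset _ _) (filter_subset _ _) m1)
    (hSS A₁ B₀ (filter_subset _ _) (filter_subset _ _) m2) (Or.inr hp)

/-- The core configuration is impossible. -/
lemma core_false [Finite G] [DecidableEq G] (hP : Stmt_PartIE.{u}) (hI2 : Stmt_I2.{u})
    (hS8 : Stmt_S8.{u}) (hsub : HSub G) (hquo : HQuo G)
    {A B : Finset G} {σ : G} (h : Core A B σ) : False := by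
  classical
  obtain ⟨N, hN⟩ := exists_index_two h.ne h.two h.uniq
  have hpos : 0 < Nat.card N := Nat.card_pos
  have hNtop : N ≠ ⊤ := by
    rintro rfl
    rw [AddSubgroup.card_top] at hN
    have : 0 < Nat.card G := Nat.card_pos
    omega
  by_cases h2p : (Nat.card N).Prime ∧ Nat.card N ≠ 2
  · exact core_false_two_p hI2 hS8 h N hN (hsub N hNtop) h2p.1 h2p.2
  · have hSS := hP G hsub hquo A B σ h (by
      intro p hp hp2 hG
      apply h2p
      have : Nat.card N = p := by omega
      rw [this]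
      exact ⟨hp, hp2⟩)
    exact hS8 G A B σ h N hN (hsub N hNtop)
      (hSS.mono (filter_subset _ _) (filter_subset _ _))
      (hSS.mono (filter_subset _ _) (filter_subset _ _))
      (Or.inl (hSS.mono (filter_subset _ _) (filter_subset _ _)))

end assembly

/-- (L) for all finite abelian groups. -/
theorem stmt_Fin (hOdd : Stmt_Odd.{u}) (hE0 : Stmt_E0.{u}) (hS1 : Stmt_S1.{u})
    (hS2a : Stmt_S2a.{u}) (hS2b : Stmt_S2b.{u}) (hS3 : Stmt_S3.{u}) (hS4 : Stmt_S4.{u})
    (hS5 : Stmt_S5.{u}) (hP : Stmt_PartIE.{u}) (hI2 : Stmt_I2.{u}) (hS8 : Stmt_S8.{u}) :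
    Stmt_Fin.{u} := by
  have key : ∀ n : ℕ, ∀ (G : Type u) [AddCommGroup G] [Finite G], Nat.card G = n → LL G := by
    intro n
    induction n using Nat.strong_induction_on with
    | _ n ih =>
    intro G _ _ hn
    classical
    have hsub : HSub G := by
      intro H hH
      apply ih (Nat.card H) _ H rfl
      rw [← hn]
      rcases lt_or_ge (Nat.card H) (Nat.card G) with h | h
      · exact h
      · exact absurd (AddSubgroup.eq_top_of_le_card H h) hH
    have hquo : HQuo G := by
      intro H hH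
      apply ih (Nat.card (G ⧸ H)) _ (G ⧸ H) rfl
      rw [← hn, AddSubgroup.card_eq_card_quotient_mul_card_addSubgroup H]
      have h1 : Nat.card H ≠ 1 := fun h => hH (AddSubgroup.card_eq_one.1 h)
      have h2 : 0 < Nat.card H := Nat.card_pos
      have h3 : 0 < Nat.card (G ⧸ H) := Nat.card_pos
      exact lt_mul_of_one_lt_right h3 (by omega)
    apply hE0 G hquo
    by_cases hodd : Odd (Nat.card G)
    · exact hOdd G hodd
    -- an involution
    rw [Nat.not_odd_iff_even] at hodd
    haveI : Fact (Nat.Prime 2) := ⟨Nat.prime_two⟩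
    obtain ⟨σ, hσ⟩ := exists_prime_addOrderOf_dvd_card' (G := G) 2 hodd.two_dvd
    have h2 : σ + σ = 0 := by rw [← two_nsmul, ← hσ, addOrderOf_nsmul_eq_zero]
    have h0 : σ ≠ 0 := by
      rintro rfl
      rw [addOrderOf_zero] at hσ
      omega
    rw [restrictedScherk_iff]
    intro A B hadm
    by_contra hcon
    push Not at hcon
    have hce : CE (A ∪ B) (A ∩ B) := by
      refine ⟨⟨mem_union_left _ hadm.zA, mem_inter.2 ⟨hadm.zA, hadm.zB⟩, ?_⟩, ?_, ?_⟩
      · intro a ha hb
        rw [mem_union] at ha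
        rw [mem_inter] at hb
        rcases ha with ha | ha
        · exact hadm.uniq a ha hb.2
        · exact hadm.symm.uniq a ha hb.1
      · exact inter_subset_left.trans subset_union_left
      · have h1 : rs (A ∪ B) (A ∩ B) ⊆ rs A B := by
          intro z hz
          rw [mem_rs] at hz
          obtain ⟨a, ha, b, hb, hne, rfl⟩ := hz
          rw [mem_union] at ha
          rw [mem_inter] at hb
          rcases ha with ha | ha
          · exact mem_rs.2 ⟨a, ha, b, hb.2, hne, rfl⟩
          · exact mem_rs.2 ⟨b, hb.1, a, ha, hne.symm, add_comm _ _⟩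
        have h3 := card_le_card h1
        have h4 := card_union_add_card_inter A B
        omega
    exact core_false hP hI2 hS8 hsub hquo
      (core_of_ce hS1 hS2a hS2b hS3 hS4 hS5 hsub hquo hce h0 h2)
  intro G _ _
  exact key _ G rfl

/-- The inequality of Q1 for all abelian groups. -/
theorem restrictedScherk_all (hF : Stmt_Fin.{u}) (G : Type u) [AddCommGroup G] :
    RestrictedScherk G := by
  classical
  rw [restrictedScherk_iff]
  intro A B h
  apply of_torsion A B h
  intro A' B' hA' hB' hadm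
  set T := AddCommGroup.torsion G with hT
  -- the finite subgroup generated by the two sets
  set K : AddSubgroup G := AddSubgroup.closure ((A' ∪ B' : Finset G) : Set G) with hK
  have hKT : K ≤ T := by
    rw [hK, AddSubgroup.closure_le]
    intro x hx
    rw [Finset.mem_coe, mem_union] at hx
    rcases hx with hx | hx
    · exact hA' x hx
    · exact hB' x hx
  haveI hfin : Finite K := by
    haveI : AddGroup.FG K := by
      rw [AddGroup.fg_iff_addSubgroup_fg, hK]
      exact ⟨A' ∪ B', rfl⟩
    apply AddCommGroup.finite_of_fg_torsion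
    intro x
    have h7 : IsOfFinAddOrder (x : G) := hKT x.2
    rw [isOfFinAddOrder_iff_nsmul_eq_zero] at h7 ⊢
    obtain ⟨n, hn, hx⟩ := h7
    exact ⟨n, hn, Subtype.ext hx⟩
  apply of_injective (hF K).scherk K.subtype (AddSubgroup.subtype_injective _) A' B' hadm
  · intro a ha
    exact ⟨⟨a, AddSubgroup.subset_closure (by
      rw [Finset.mem_coe, mem_union]; exact Or.inl ha)⟩, rfl⟩
  · intro a ha
    exact ⟨⟨a, AddSubgroup.subset_closure (by
      rw [Finset.mem_coe, mem_union]; exact Or.inr ha)⟩, rfl⟩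

end Pool.Agent.Work.MP_59976d_co
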