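import Pool.Agent.Work.MP_59976d_co_even_helper39.LCaseE
import Pool.Agent.Work.MP_59976d_co_even_helper38.LvE

/-!
Block LCaseE from the corrected level lemma `Stmt_LvE1p` (helper39's proof of `stmt_LCaseE`).
-/

namespace Pool.Agent.Work.MP_59976d_co

open Finset
open scoped Pointwise

universe u

open LCE

/-- Block LCaseE. -/
theorem stmt_LCaseE' (hE1 : Stmt_LvE1p.{u}) (hE0 : Stmt_LvE0.{u}) (hZ : Stmt_LvZ.{u})
    (hH6 : Stmt_H6.{u}) : Stmt_LCaseE.{u} := by
  intro G _ _ _ hsub hquo A B σ core L hL hL2 hG i j hi hj
  classical
  by_cases hij : i = j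
  swap
  · exact part_cd L hL A B i j hij hi hj
  subst hij
  by_contra hlt
  have : Fintype (G ⧸ L) := Fintype.ofFinite _
  have hLodd : Odd (Nat.card L) := hL.odd_of_ne_two hL2
  have hLbot : L ≠ ⊥ := by
    rintro rfl
    rw [AddSubgroup.card_bot] at hL
    exact Nat.not_prime_one hL
  have hR : LL (G ⧸ L) := hquo L hLbot
  have hσL : σ ∉ L := by
    intro h
    have h1 : addOrderOf (⟨σ, h⟩ : L) ∣ Nat.card L := addOrderOf_dvd_natCard _
    have h2 : addOrderOf (⟨σ, h⟩ : L) = 2 := by
      apply addOrderOf_eq_prime
      · rw [two_nsmul]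
        ext
        exact core.two
      · intro h3
        exact core.ne (congrArg (fun y : L => (y : G)) h3)
    rw [h2] at h1
    obtain ⟨m, hm⟩ := hLodd
    omega
  set p := Nat.card L with hp
  set τ : G ⧸ L := QuotientAddGroup.mk σ with hτ
  have hτ2 : τ + τ = 0 := by
    rw [hτ, ← QuotientAddGroup.mk_add, core.two, QuotientAddGroup.mk_zero]
  have hτ0 : τ ≠ 0 := by
    rw [hτ, Ne, QuotientAddGroup.eq_zero_iff]
    exact hσL
  have huniq : ∀ x : G ⧸ L, x + x = 0 → x = 0 ∨ x = τ := by
    intro x hx
    obtain ⟨g, rfl, hg⟩ := lift_two hLodd hx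
    rcases core.uniq g hg with rfl | rfl
    · left; exact QuotientAddGroup.mk_zero L
    · right; rfl
  set α : G ⧸ L → ℕ := fun x => (part L A x).card with hα
  set β : G ⧸ L → ℕ := fun x => (part L B x).card with hβ
  set γ : G ⧸ L → ℕ := fun x => (part L (rs A B) x).card with hγ
  have F1 : ∀ x y, x ≠ y → 1 ≤ α x → 1 ≤ β y → min p (α x + β y - 1) ≤ γ (x + y) :=
    fun x y hxy hx hy => part_cd L hL A B x y hxy hx hy
  have F2 : ∀ x, 1 ≤ α x → 1 ≤ β x → p ≤ γ (x + x) ∨
      α x + β x ≤ γ (x + x) + 2 + (if α x = β x then 1 else 0) :=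
    fun x hx hy => part_anr L hL hL2 A B x hx hy
  have hαp : ∀ x, α x ≤ p := fun x => card_part_le L A x
  have hβp : ∀ x, β x ≤ p := fun x => card_part_le L B x
  have hα2 : ∀ x, α x + α (x + τ) ≤ p := fun x => part_add_part_le core.two core.A1 x
  have hβ2 : ∀ x, β x + β (x + τ) ≤ p := fun x => part_add_part_le core.two core.B1 x
  have hγ2 : ∀ x, p ≤ γ x + γ (x + τ) := fun x => le_part_add_part core.two core.C1 x
  have hβα : ∀ x, β x ≤ α x := fun x => card_part_mono core.ce.sub x
  have hQM : ∀ k, 1 ≤ α k → 1 ≤ β k → γ (k + k) < min p (α k + β k - 1) →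
      α k + α (k + τ) + (β k + β (k + τ)) ≤ γ (k + k) + γ (k + k + τ) + 3 := by
    intro k hk1 hk2 hk3
    obtain ⟨d, hdA, hdB, hlost, hdk⟩ := exists_lost hL hk1 hk2 hk3
    exact QM core.two hσL (fun M hM => (hsub M hM).scherk) hG hdA hdB
      (core.lost d hdA hdB hlost) hdk
  have hA : A.card = ∑ x, α x := card_eq_sum_part L A
  have hB : B.card = ∑ x, β x := card_eq_sum_part L B
  have hC : (rs A B).card = ∑ x, γ x := card_eq_sum_part L (rs A B)
  have hF := core.ce.def4
  -- recentering
  have shift : ∀ (φ : G ⧸ L → ℕ) (k : G ⧸ L),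
      φ k + ∑ x ∈ univ.erase (0 : G ⧸ L), φ (x + k) = ∑ x, φ x := by
    intro φ k
    rw [← Equiv.sum_comp (Equiv.addRight k) φ, ← Finset.add_sum_erase univ _ (mem_univ (0 : G ⧸ L))]
    simp
  have hkτ : ∀ k : G ⧸ L, k + τ + (k + τ) = k + k := by
    intro k
    have : k + τ + (k + τ) = k + k + (τ + τ) := by abel
    rw [this, hτ2, add_zero]
  by_cases hex : ∃ k, 1 ≤ α k ∧ 1 ≤ β k ∧ γ (k + k) < p ∧ γ (k + k) + 3 = α k + β k
  · obtain ⟨k, hk1, hk2, hk3, hk4⟩ := hex
    have hk5 := F2 k hk1 hk2
    have hk6 : α k = β k := by
      rcases hk5 with h | h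
      · omega
      · by_contra hne
        rw [if_neg hne] at h
        omega
    have hk7 : γ (k + k) + 2 ≤ p := by
      obtain ⟨m, hm⟩ := hLodd
      omega
    have hqm := hQM k hk1 hk2 (by omega)
    have h := hE1 (G ⧸ L) hR τ hτ0 hτ2 huniq p (α k) (fun x => α (x + k)) (fun x => β (x + k))
      (fun x => γ (x + (k + k))) (fun x => hαp _) (fun x => hβp _)
      (fun x => by
        have := hα2 (x + k)
        have e : x + k + τ = x + τ + k := by abel
        rwa [e] at this)
      (by omega) (by simp only [zero_add]) (by simp only [zero_add]; omega)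
      (by simp only [zero_add]; omega) (by omega)
      (fun x y hxy hx hy => by
        have := F1 (x + k) (y + k) (fun h => hxy (add_right_cancel h)) hx hy
        have e : x + k + (y + k) = x + y + (k + k) := by abel
        rw [e] at this
        exact this)
      (fun x _ _ hx hy => by
        have := F2 (x + k) hx hy
        have e : x + k + (x + k) = x + x + (k + k) := by abel
        rw [e] at this
        show min p (α (x + k) + β (x + k) - 3) ≤ γ (x + x + (k + k))
        rcases this with h | h
        · omega
        · split_ifs at h <;> omega)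
      (by
        show α (τ + k) + β (τ + k) ≤ γ (τ + (k + k))
        rw [add_comm τ k, add_comm τ (k + k)]
        omega)
      (fun hx hy => by
        show α (τ + k) + β (τ + k) + 1 ≤ 2 * α k ∨ (α (τ + k) = α k ∧ β (τ + k) = α k)
        have := F2 (τ + k) hx hy
        rw [add_comm τ k, hkτ] at this
        rw [add_comm τ k]
        rcases this with h | h
        · omega
        · split_ifs at h <;> omega)
    have h1 := shift α k
    have h2 := shift β k
    have h3 := shift γ (k + k)
    rw [sum_add_distrib] at h
    omega
  · push Not at hex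
    have hlt' : γ (i + i) < min p (α i + β i - 1) := not_le.1 hlt
    have hi' : 1 ≤ α i := hi
    have hj' : 1 ≤ β i := hj
    have F3 : ∀ x, 1 ≤ α x → 1 ≤ β x → min p (α x + β x - 2) ≤ γ (x + x) := by
      intro x hx hy
      by_contra hlt3
      have h1 := F2 x hx hy
      have h2 := hex x hx hy (by omega)
      rcases h1 with h | h
      · omega
      · split_ifs at h <;> omega
    have h3 := F3 i hi' hj'
    have hqm := hQM i hi' hj' hlt'
    have F1' : ∀ x y, x ≠ y → 1 ≤ α (x + i) → 1 ≤ β (y + i) →
        min p (α (x + i) + β (y + i) - 1) ≤ γ (x + y + (i + i)) := by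
      intro x y hxy hx hy
      have := F1 (x + i) (y + i) (fun h => hxy (add_right_cancel h)) hx hy
      have e : x + i + (y + i) = x + y + (i + i) := by abel
      rwa [e] at this
    have F3' : ∀ x, 1 ≤ α (x + i) → 1 ≤ β (x + i) →
        min p (α (x + i) + β (x + i) - 2) ≤ γ (x + x + (i + i)) := by
      intro x hx hy
      have := F3 (x + i) hx hy
      have e : x + i + (x + i) = x + x + (i + i) := by abel
      rwa [e] at this
    have hτi : 1 ≤ α (τ + i) → 1 ≤ β (τ + i) → α (τ + i) + β (τ + i) ≤ α i + β i := by
      intro hx hy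
      have := F3' τ hx hy
      rw [hτ2, zero_add] at this
      omega
    have s1 := shift α i
    have s2 := shift β i
    have s3 := shift γ (i + i)
    by_cases hgood : 1 ≤ α (τ + i) → 1 ≤ β (τ + i) → α (τ + i) + β (τ + i) + 1 ≤ α i + β i ∨
        (α (τ + i) + β (τ + i) = α i + β i ∧ α i + β i ≤ γ (τ + (i + i)))
    · have h := hE0 (G ⧸ L) hR τ hτ0 hτ2 huniq p (fun x => α (x + i)) (fun x => β (x + i))
        (fun x => γ (x + (i + i))) (fun x => hαp _) (fun x => hβp _)
        (by simp only [zero_add]; omega) (by simp only [zero_add]; omega)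
        (by simp only [zero_add]; omega) (by simp only [zero_add]; omega)
        F1' (fun x _ _ hx hy => F3' x hx hy)
        (fun hx hy => by
          simp only [zero_add]
          exact hgood hx hy)
      rw [sum_add_distrib] at h
      omega
    · push Not at hgood
      obtain ⟨hx, hy, hne, hγτ⟩ := hgood
      have h4 := hτi hx hy
      have h5 := hγτ (by omega)
      rw [add_comm i τ, add_comm (i + i) τ] at hqm
      have h6 := hα2 i
      have h7 := hβ2 i
      rw [add_comm i τ] at h6 h7
      -- the types at `0` and `τ` agree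
      have h8 := F1' 0 τ (fun h => hτ0 h.symm) (by rw [zero_add]; exact hi') hy
      have h9 := F1' τ 0 hτ0 hx (by rw [zero_add]; exact hj')
      rw [zero_add, zero_add] at h8
      rw [add_zero, zero_add] at h9
      have h10 := hγ2 (i + i)
      rw [add_comm (i + i) τ] at h10
      have hQ : RestrictedScherk ((G ⧸ L) ⧸ AddSubgroup.zmultiples τ) :=
        (hquo.quoQuo L hLbot _).scherk
      have h := hZ (G ⧸ L) τ hτ0 hτ2 huniq hQ p (fun x => α (x + i)) (fun x => β (x + i))
        (fun x => γ (x + (i + i))) (fun x => hβα _)
        (fun x => by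
          have := hα2 (x + i)
          have e : x + i + τ = x + τ + i := by abel
          rwa [e] at this)
        (by simp only [zero_add]; omega) (by simp only [zero_add]; omega)
        (by simp only [zero_add]; omega) (by simp only [zero_add]; omega)
        (by simp only [zero_add]; omega) (by simp only [zero_add]; omega)
        (by simp only [zero_add]; omega) F1' (fun x _ _ hx hy => F3' x hx hy)
        (by
          intro x y hyx hyx' hx1 hx2 hy1 hy2
          simp only [zero_add] at hx1 hx2 hy1 hy2 ⊢
          -- the sets in the two pairs of cosets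
          set X := A.filter (fun a => (QuotientAddGroup.mk a : G ⧸ L) = x + i ∨
            (QuotientAddGroup.mk a : G ⧸ L) = x + i + τ) with hX
          set Y := B.filter (fun a => (QuotientAddGroup.mk a : G ⧸ L) = y + i ∨
            (QuotientAddGroup.mk a : G ⧸ L) = y + i + τ) with hY
          have hXY : X + Y ⊆ rs A B := by
            intro z hz
            rw [mem_add] at hz
            obtain ⟨a, ha, b, hb, rfl⟩ := hz
            rw [hX, mem_filter] at ha
            rw [hY, mem_filter] at hb
            rw [mem_rs]
            refine ⟨a, ha.1, b, hb.1, ?_, rfl⟩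
            rintro rfl
            rcases ha.2 with h11 | h11 <;> rcases hb.2 with h12 | h12
            · exact hyx (add_right_cancel (h12.symm.trans h11))
            · apply hyx'
              have h13 : y + i + τ = x + i := h12.symm.trans h11
              have h14 : y + i + τ + τ = x + i + τ := by rw [h13]
              rw [add_assoc (y + i), hτ2, add_zero] at h14
              have h15 : y + i = x + τ + i := by rw [h14]; abel
              exact add_right_cancel h15
            · apply hyx'
              have h13 : y + i = x + i + τ := h12.symm.trans h11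
              have h15 : y + i = x + τ + i := by rw [h13]; abel
              exact add_right_cancel h15
            · exact hyx (add_right_cancel (add_right_cancel (h12.symm.trans h11)))
          have hpX : ∀ z, (z = x + i ∨ z = x + i + τ) → part L X z = part L A z := by
            intro z hz
            ext a
            rw [mem_part, mem_part, hX, mem_filter]
            constructor
            · rintro ⟨⟨h1, _⟩, h2⟩; exact ⟨h1, h2⟩
            · rintro ⟨h1, h2⟩; exact ⟨⟨h1, by rw [h2]; exact hz⟩, h2⟩
          have hpY : ∀ z, (z = y + i ∨ z = y + i + τ) → part L Y z = part L B z := by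
            intro z hz
            ext a
            rw [mem_part, mem_part, hY, mem_filter]
            constructor
            · rintro ⟨⟨h1, _⟩, h2⟩; exact ⟨h1, h2⟩
            · rintro ⟨h1, h2⟩; exact ⟨⟨h1, by rw [h2]; exact hz⟩, h2⟩
          have h16 := hH6 G L hL hL2 σ core.ne core.two X Y (x + i) (y + i) (α i) (β i)
            (fun a ha hb => core.A1 a (mem_filter.1 ha).1 (mem_filter.1 hb).1)
            (fun a ha hb => core.B1 a (mem_filter.1 ha).1 (mem_filter.1 hb).1)
            hi' hj' (by omega)
            (by rw [hpX _ (Or.inl rfl)]; exact hx1)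
            (by
              rw [hpX _ (Or.inr rfl)]
              have e : x + i + τ = x + τ + i := by abel
              rw [e]; exact hx2)
            (by rw [hpY _ (Or.inl rfl)]; exact hy1)
            (by
              rw [hpY _ (Or.inr rfl)]
              have e : y + i + τ = y + τ + i := by abel
              rw [e]; exact hy2)
          have e1 : x + i + (y + i) = x + y + (i + i) := by abel
          have e2 : x + i + (y + i) + τ = x + y + τ + (i + i) := by abel
          rw [← hτ, e2, e1] at h16
          rcases h16 with h16 | h16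
          · left; exact h16.trans (card_part_mono hXY _)
          · right; exact h16.trans (card_part_mono hXY _))
      -- splitting off `τ`
      have hτmem : τ ∈ univ.erase (0 : G ⧸ L) := mem_erase.2 ⟨hτ0, mem_univ _⟩
      have t1 := Finset.add_sum_erase (univ.erase (0 : G ⧸ L)) (fun x => α (x + i)) hτmem
      have t2 := Finset.add_sum_erase (univ.erase (0 : G ⧸ L)) (fun x => β (x + i)) hτmem
      have t3 := Finset.add_sum_erase (univ.erase (0 : G ⧸ L)) (fun x => γ (x + (i + i))) hτmem
      rw [sum_add_distrib] at h
      omega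

end Pool.Agent.Work.MP_59976d_co
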