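import Pool.Agent.Work.MP_59976d_co_even.ELE

/-!
Part I, even case: the core configuration satisfies (**) unless `|G| = 2p` (block PartIE).
-/

namespace Pool.Agent.Work.MP_59976d_co

open Finset
open scoped Pointwise

universe u

section partI

variable {G : Type u} [AddCommGroup G]

/-- Fibres of order two are at most half full. -/
lemma card_part_le_one [Finite G] [DecidableEq G] {σ : G} (huniq : ∀ w : G, w + w = 0 → w = 0 ∨ w = σ)
    (L : AddSubgroup G) (hL : Nat.card L = 2) (A : Finset G) (hA : ∀ a ∈ A, a + σ ∉ A) (x : G ⧸ L) :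
    (part L A x).card ≤ 1 := by
  rw [card_le_one]
  intro a ha b hb
  rw [mem_part] at ha hb
  have h1 : -a + b ∈ L := by
    rw [← QuotientAddGroup.eq, ha.2, hb.2]
  have h2 : (-a + b) + (-a + b) = 0 := by
    have := card_nsmul_mem L h1
    rwa [hL, two_nsmul] at this
  rcases huniq _ h2 with h | h
  · rw [neg_add_eq_zero] at h; exact h
  · exfalso
    apply hA a ha.1
    rw [← h, add_neg_cancel_left]
    exact hb.1

/-- Subgroups of prime order are unsaturated. -/
lemma unsat_primeE (hLC : Stmt_LCaseE.{u}) (hST : Stmt_Struct.{u}) (hEl : Stmt_ElimE.{u})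
    [Fintype G] [DecidableEq G] (hsub : HSub G) (hquo : HQuo G)
    (A B : Finset G) (σ : G) (hc : Core A B σ)
    (h2p : ∀ p : ℕ, p.Prime → p ≠ 2 → Nat.card G ≠ 2 * p) :
    ∀ n : ℕ, ∀ L : AddSubgroup G, (Nat.card L).Prime → Nat.card L = n → ∀ x y : G ⧸ L,
      (part L A x).card + (part L B y).card ≤ Nat.card L := by
  classical
  have hadm := hc.ce.adm
  have hF := hc.ce.def4
  intro n
  induction n using Nat.strong_induction_on with
  | _ n ih =>
  intro L hL hLn
  haveI : Fintype (G ⧸ L) := Fintype.ofFinite _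
  by_cases hL2 : Nat.card L = 2
  · intro x y
    have h1 := card_part_le_one hc.uniq L hL2 A hc.A1 x
    have h2 := card_part_le_one hc.uniq L hL2 B hc.B1 y
    omega
  have hlc := hLC G hsub hquo A B σ hc L hL hL2 (h2p _ hL hL2)
  have hA0 : 1 ≤ (part L A 0).card := card_part_pos L hadm.zA
  have hB0 : 1 ≤ (part L B 0).card := card_part_pos L hadm.zB
  have hC0 := part_zero_lt L (zero_notMem_rs' hadm)
  have hsum : ∑ i, (part L (rs A B) i).card + 2 ≤ ∑ i, (part L A i).card +
      ∑ i, (part L B i).card := by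
    rw [← card_eq_sum_part, ← card_eq_sum_part, ← card_eq_sum_part]
    omega
  obtain ⟨K, m, m', g, hH, halt⟩ := hST (G ⧸ L) (Nat.card L) (fun i => (part L A i).card)
    (fun i => (part L B i).card) (fun i => (part L (rs A B) i).card)
    (fun i => card_part_le L A i) (fun i => card_part_le L B i) hA0 hB0 hC0 hlc hsum
  have hle1 : ∀ i, (part L A i).card ≤ m i := hH.le_m
  have hle2 : ∀ i, (part L B i).card ≤ m' i := hH.le_m'
  have hle3 : ∀ i, g i ≤ (part L (rs A B) i).card := hH.g_le
  rcases halt with h1 | h2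
  · have hK : K = ⊤ := alt_one (fun H hH => (hsub H hH).scherk) A B hadm hF L _ K m m' g hH h1
    intro x y
    have e1 := hH.per_m x (by rw [hK]; exact AddSubgroup.mem_top x) 0
    have e2 := hH.per_m' y (by rw [hK]; exact AddSubgroup.mem_top y) 0
    rw [add_zero] at e1 e2
    have e3 := hle1 x
    have e4 := hle2 y
    have e5 := hle3 0
    omega
  · exfalso
    exact hEl G hsub A B σ hc L hL hL2 (fun L' hL' hlt => ih (Nat.card L')
      (hLn ▸ hlt) L' hL' rfl) K m m' g hH h2

theorem stmt_PartIE (hLC : Stmt_LCaseE.{u}) (hST : Stmt_Struct.{u}) (hEl : Stmt_ElimE.{u}) :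
    Stmt_PartIE.{u} := by
  intro G _ _ _ hsub hquo A B σ hc h2p H hH x y
  classical
  haveI : Fintype G := Fintype.ofFinite G
  -- a subgroup of prime order
  have hcard : Nat.card H ≠ 1 := fun h => hH (AddSubgroup.card_eq_one.1 h)
  obtain ⟨p, hp, hpd⟩ := Nat.exists_prime_and_dvd hcard
  haveI : Fact p.Prime := ⟨hp⟩
  obtain ⟨h, hh⟩ := exists_prime_addOrderOf_dvd_card' (G := H) p hpd
  set L : AddSubgroup G := AddSubgroup.zmultiples (h : G) with hL
  have hLcard : Nat.card L = p := by
    rw [hL, Nat.card_zmultiples, ← hh]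
    exact AddSubgroup.addOrderOf_coe h
  have hLH : L ≤ H := by
    rw [hL, AddSubgroup.zmultiples_le]
    exact h.2
  have huns := unsat_primeE hLC hST hEl hsub hquo A B σ hc h2p p L (by rw [hLcard]; exact hp)
    hLcard
  haveI : Fintype (G ⧸ L) := Fintype.ofFinite _
  obtain ⟨x₀, _, hx₀⟩ := Finset.exists_max_image (univ : Finset (G ⧸ L))
    (fun x => (part L A x).card) ⟨0, mem_univ _⟩
  obtain ⟨y₀, _, hy₀⟩ := Finset.exists_max_image (univ : Finset (G ⧸ L))
    (fun x => (part L B x).card) ⟨0, mem_univ _⟩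
  have h1 := holes_avg H L hLH (part H A x) (part L A x₀).card
    (fun z => (card_part_mono (part_subset H A x) z).trans (hx₀ z (mem_univ z)))
  have h2 := holes_avg H L hLH (part H B y) (part L B y₀).card
    (fun z => (card_part_mono (part_subset H B y) z).trans (hy₀ z (mem_univ z)))
  have h3 := hull_le_of_inCoset H A x
  have h4 := hull_le_of_inCoset H B y
  have h5 := huns x₀ y₀
  rw [hLcard] at h1 h2 h5
  apply Nat.le_of_mul_le_mul_left _ hp.pos
  calc p * ((part H A x).card + (part H B y).card)
      = p * (part H A x).card + p * (part H B y).card := by ring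
    _ ≤ Nat.card H * (part L A x₀).card + Nat.card H * (part L B y₀).card :=
        Nat.add_le_add (h1.trans (Nat.mul_le_mul_right _ h3)) (h2.trans (Nat.mul_le_mul_right _ h4))
    _ = Nat.card H * ((part L A x₀).card + (part L B y₀).card) := by ring
    _ ≤ Nat.card H * p := Nat.mul_le_mul_left _ h5
    _ = p * Nat.card H := by ring

end partI

end Pool.Agent.Work.MP_59976d_co
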