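import Pool.Agent.Work.MP_59976d_co_even.Fin
import Pool.Agent.Work.MP_59976d_co_odd.Total
import Pool.Agent.Work.MP_59976d_co_even_helper38.S3
import Pool.Agent.Work.MP_59976d_co_even_helper38.S5
import Pool.Agent.Work.MP_59976d_co_even_helper55.H6
import Pool.Agent.Work.MP_59976d_co_even_helper55.S8
import Pool.Agent.Work.MP_59976d_co_even_helper55.S4
import Pool.Agent.Work.MP_59976d_co_even_helper60.E0
import Pool.Agent.Work.MP_59976d_co_even_helper60.S1
import Pool.Agent.Work.MP_59976d_co_even_helper42.LvZ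
import Pool.Agent.Work.MP_59976d_co_even.LCaseE
import Pool.Agent.Work.MP_59976d_co_even_helper63.S2b

/-!
All blocks together.
-/

namespace Pool.Agent.Work.MP_59976d_co

universe u

theorem all_fin : Stmt_Fin.{u} := by
  have hK : Stmt_Kneser.{u} := stmt_kneser
  have hC : Stmt_CDH.{u} := stmt_CDH hK
  have hST : Stmt_Struct.{u} := stmt_struct hK
  have hV : Stmt_V.{u} := stmt_V hK hC
  have hEl : Stmt_ElimE.{u} := stmt_ElimE hK
  have hS : Stmt_Scherk.{u} := stmt_Scherk hK
  have hLC : Stmt_LCaseE.{u} := stmt_LCaseE' stmt_LvE1p stmt_LvE0 (stmt_LvZ hS)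
    (stmt_H6 hK)
  have hP : Stmt_PartIE.{u} := stmt_PartIE hLC hST hEl
  exact stmt_Fin all_odd stmt_E0 stmt_S1 stmt_S2a (stmt_S2b hS) stmt_S3 (stmt_S4 hST)
    stmt_S5 hP (stmt_I2 hK hC) (stmt_S8 hK hC hV)

/-- The inequality of Q1 in all abelian groups. -/
theorem scherk_all (G : Type u) [AddCommGroup G] : RestrictedScherk G :=
  restrictedScherk_all all_fin G

end Pool.Agent.Work.MP_59976d_co
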